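import Pool.Agent.Helper13.TW.StE

/-!
# Project TW: module MD2 (cutting the cells of the plane)
-/

set_option autoImplicit false

namespace Pool.Agent.Helper15.TW

open Set Topology Pool.Agent.Helper13.TR Pool.Agent.Helper13.TW

/-- the linear function `z ↦ Re (conj w z)` -/
private noncomputable def lf (w : ℂ) : ℂ →ₗ[ℝ] ℝ where
  toFun z := ((starRingEnd ℂ) w * z).re
  map_add' x y := by rw [mul_add, Complex.add_re]
  map_smul' c x := by
    simp only [Complex.real_smul, RingHom.id_apply, smul_eq_mul, Complex.mul_re, Complex.ofReal_re,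
      Complex.ofReal_im, Complex.mul_im, Complex.conj_re, Complex.conj_im]
    ring

private lemma lf_apply (w z : ℂ) : lf w z = w.re * z.re + w.im * z.im := by
  show ((starRingEnd ℂ) w * z).re = _
  simp only [Complex.mul_re, Complex.conj_re, Complex.conj_im]
  ring

private lemma nsq (z : ℂ) : ‖z‖ ^ 2 = z.re ^ 2 + z.im ^ 2 := by
  rw [← Complex.normSq_eq_norm_sq, Complex.normSq_apply]
  ring

/-- the line through two points of the unit circle -/
private lemma chord {u v : ℂ} (hu : ‖u‖ = 1) (hv : ‖v‖ = 1) (huv : u ≠ v) :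
    ∃ (f : ℂ →ₗ[ℝ] ℝ) (t : ℝ), f u = t ∧ f v = t ∧ (∃ a ∈ Metric.closedBall (0 : ℂ) 1, f a < t) ∧
      ∃ b ∈ Metric.closedBall (0 : ℂ) 1, t < f b := by
  set w : ℂ := Complex.I * (v - u) with hw
  have hvu : v - u ≠ 0 := sub_ne_zero.2 huv.symm
  have w0 : w ≠ 0 := mul_ne_zero Complex.I_ne_zero hvu
  have wpos : 0 < ‖w‖ := norm_pos_iff.2 w0
  have wre : w.re = -(v.im - u.im) := by rw [hw]; simp
  have wim : w.im = v.re - u.re := by rw [hw]; simp
  have hww : lf w w = ‖w‖ ^ 2 := by rw [lf_apply, nsq]; ring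
  have e1 : lf w u = lf w v := by
    rw [lf_apply, lf_apply, wre, wim]
    have h1 := nsq u
    have h2 := nsq v
    ring
  set m : ℂ := (1 / 2 : ℝ) • (u + v) with hm
  have e2 : lf w m = lf w u := by
    rw [hm, map_smul, map_add, ← e1, smul_eq_mul]
    ring
  have hm1 : ‖m‖ < 1 := by
    have h1 := nsq u
    have h2 := nsq v
    have h3 := nsq m
    have h4 : 0 < ‖v - u‖ ^ 2 := by positivity
    rw [nsq] at h4
    rw [hu] at h1
    rw [hv] at h2
    have mre : m.re = (u.re + v.re) / 2 := by rw [hm]; simp; ring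
    have mim : m.im = (u.im + v.im) / 2 := by rw [hm]; simp; ring
    rw [mre, mim] at h3
    simp only [Complex.sub_re, Complex.sub_im] at h4
    have h5 : ‖m‖ ^ 2 < 1 := by
      rw [h3]
      nlinarith
    nlinarith [norm_nonneg m]
  set ε : ℝ := (1 - ‖m‖) / ‖w‖ with hε
  have ε0 : 0 < ε := div_pos (by linarith) wpos
  have hεw : ‖(ε : ℝ) • w‖ = 1 - ‖m‖ := by
    rw [norm_smul, Real.norm_eq_abs, abs_of_pos ε0, hε]
    field_simp
  have hpos : 0 < ε * ‖w‖ ^ 2 := by positivity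
  refine ⟨lf w, lf w u, rfl, e1.symm, ⟨m - ε • w, ?_, ?_⟩, ⟨m + ε • w, ?_, ?_⟩⟩
  · rw [mem_closedBall_zero_iff]
    have := norm_sub_le m (ε • w)
    linarith
  · rw [map_sub, e2, (lf w).map_smul ε w, smul_eq_mul, hww]
    linarith
  · rw [mem_closedBall_zero_iff]
    have := norm_add_le m (ε • w)
    linarith
  · rw [map_add, e2, (lf w).map_smul ε w, smul_eq_mul, hww]
    linarith

theorem hMD2 (hMD1 : StMD1) (hSCL : StSCL) (hARB : StARB) : StMD2 := by
  obtain ⟨md1, md2, md3⟩ := hMD1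
  have part1 : ∀ E J : Set ℂ, MCell E J → IsCompact E ∧ J ⊆ E ∧ IsSCC J := by
    rintro E J ⟨h, rfl, rfl⟩
    refine ⟨(isCompact_closedBall 0 1).image h.continuous, image_mono Metric.sphere_subset_closedBall, ?_⟩
    exact (hSCL ℂ _ md1).2.2.2.1 ℂ h h.continuous.continuousOn h.injective.injOn
  refine ⟨part1, ?_⟩
  intro E J p q D₁ D₂ hM hspl
  have hSJ := (part1 E J hM).2.2
  obtain ⟨h, hE, hJ⟩ := hM
  have hinj : Function.Injective h := h.injective
  have hcont : Continuous h := h.continuous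
  obtain ⟨hD₁, hD₂, hDi, hDu⟩ := hspl
  have k1 := hARB.1 ℂ D₁ p q hD₁
  have hpq : p ≠ q := k1.2.2.2.2.1
  have hpJ : p ∈ J := by rw [← hDu]; exact Or.inl k1.2.2.1
  have hqJ : q ∈ J := by rw [← hDu]; exact Or.inl k1.2.2.2.1
  rw [← hJ] at hpJ hqJ
  obtain ⟨u, hu, hup⟩ := hpJ
  obtain ⟨v, hv, hvq⟩ := hqJ
  have huv : u ≠ v := fun e => hpq (by rw [← hup, ← hvq, e])
  obtain ⟨f, t, fu, fv, ha, hb⟩ := chord (mem_sphere_zero_iff_norm.1 hu) (mem_sphere_zero_iff_norm.1 hv) huv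
  have hfc : Continuous f := f.continuous_of_finiteDimensional
  have hCi : (interior (Metric.closedBall (0 : ℂ) 1)).Nonempty := by
    rw [interior_closedBall (0 : ℂ) one_ne_zero]
    exact ⟨0, Metric.mem_ball_self one_pos⟩
  obtain ⟨i1, i2, p₁, q₁, A₁, A₂, hsp, hf1, hf2⟩ := md3 (Metric.closedBall (0 : ℂ) 1) (isCompact_closedBall 0 1)
    (convex_closedBall 0 1) hCi f t ha hb
  rw [frontier_closedBall (0 : ℂ) one_ne_zero] at hsp
  set C₁ : Set ℂ := Metric.closedBall (0 : ℂ) 1 ∩ {z | f z ≤ t} with hC₁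
  set C₂ : Set ℂ := Metric.closedBall (0 : ℂ) 1 ∩ {z | t ≤ f z} with hC₂
  set P₀ : Set ℂ := Metric.closedBall (0 : ℂ) 1 ∩ {z | f z = t} with hP₀
  obtain ⟨⟨a1, a2, ai, au⟩, aP, aPJ, cu, ci, c1, c2⟩ := hsp
  -- the end points
  have hu' : u ∈ ({p₁, q₁} : Set ℂ) := by
    rw [← aPJ]
    exact ⟨⟨Metric.sphere_subset_closedBall hu, fu⟩, hu⟩
  have hv' : v ∈ ({p₁, q₁} : Set ℂ) := by
    rw [← aPJ]
    exact ⟨⟨Metric.sphere_subset_closedBall hv, fv⟩, hv⟩
  have hset : ({p₁, q₁} : Set ℂ) = {u, v} := by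
    rcases hu' with rfl | hu'
    · rcases hv' with rfl | hv'
      · exact absurd rfl huv
      · rw [mem_singleton_iff] at hv'
        rw [hv']
    · rw [mem_singleton_iff] at hu'
      rcases hv' with rfl | hv'
      · rw [hu', pair_comm]
      · rw [mem_singleton_iff] at hv'
        exact absurd (hu'.trans hv'.symm) huv
  have himg : h '' {u, v} = {p, q} := by rw [image_pair, hup, hvq]
  -- the arc P
  have hP : IsArc (h '' P₀) p q := by
    have h1 := hARB.2.2.2.2.2 ℂ ℂ P₀ p₁ q₁ h aP hcont.continuousOn hinj.injOn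
    rcases hu' with hu' | hu'
    · rcases hv' with hv' | hv'
      · exact absurd (hu'.trans hv'.symm) huv
      · rw [mem_singleton_iff] at hv'
        rw [← hup, ← hvq, hu', hv']
        exact h1
    · rw [mem_singleton_iff] at hu'
      rcases hv' with hv' | hv'
      · rw [← hup, ← hvq, hu', hv']
        exact (hARB.1 ℂ _ _ _ h1).1
      · rw [mem_singleton_iff] at hv'
        exact absurd (hu'.trans hv'.symm) huv
  have hPJ : h '' P₀ ∩ J = {p, q} := by
    rw [← hJ, ← image_inter hinj, aPJ, hset, himg]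
  have hEu : h '' C₁ ∪ h '' C₂ = E := by rw [← image_union, cu, hE]
  have hEi : h '' C₁ ∩ h '' C₂ = h '' P₀ := by rw [← image_inter hinj, ci]
  have hE1 : h '' C₁ ∩ J = h '' A₁ := by rw [← hJ, ← image_inter hinj, c1]
  have hE2 : h '' C₂ ∩ J = h '' A₂ := by rw [← hJ, ← image_inter hinj, c2]
  -- the pieces are cells
  have hK : IsCompact (Metric.closedBall (0 : ℂ) 1) := isCompact_closedBall 0 1
  have m1 : MCell (h '' C₁) (h '' A₁ ∪ h '' P₀) := by
    obtain ⟨g, g1, g2⟩ := md2 C₁ (hK.inter_right (isClosed_le hfc continuous_const))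
      ((convex_closedBall 0 1).inter (convex_halfSpace_le f.isLinear t)) i1
    refine ⟨g.trans h, ?_, ?_⟩
    · have e : (g.trans h : ℂ → ℂ) = h ∘ g := rfl
      rw [e, image_comp, g1]
    · have e : (g.trans h : ℂ → ℂ) = h ∘ g := rfl
      rw [e, image_comp, g2, hf1, image_union]
  have m2 : MCell (h '' C₂) (h '' A₂ ∪ h '' P₀) := by
    obtain ⟨g, g1, g2⟩ := md2 C₂ (hK.inter_right (isClosed_le continuous_const hfc))
      ((convex_closedBall 0 1).inter (convex_halfSpace_ge f.isLinear t)) i2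
    refine ⟨g.trans h, ?_, ?_⟩
    · have e : (g.trans h : ℂ → ℂ) = h ∘ g := rfl
      rw [e, image_comp, g1]
    · have e : (g.trans h : ℂ → ℂ) = h ∘ g := rfl
      rw [e, image_comp, g2, hf2, image_union]
  -- the two arcs of J
  have hA1c : IsClosed (h '' A₁) := ((hARB.1 ℂ A₁ p₁ q₁ a1).2.1.image hcont).isClosed
  have hA2c : IsClosed (h '' A₂) := ((hARB.1 ℂ A₂ p₁ q₁ a2).2.1.image hcont).isClosed
  have hAu : h '' A₁ ∪ h '' A₂ = J := by rw [← image_union, au, hJ]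
  have hAi : h '' A₁ ∩ h '' A₂ = {p, q} := by rw [← image_inter hinj, ai, hset, himg]
  have hn1 : (h '' A₁ \ {p, q}).Nonempty := by
    rw [← himg, ← hset, ← image_diff hinj]
    exact (hARB.1 ℂ A₁ p₁ q₁ a1).2.2.2.2.2.2.2.2.1.nonempty.image h
  have hn2 : (h '' A₂ \ {p, q}).Nonempty := by
    rw [← himg, ← hset, ← image_diff hinj]
    exact (hARB.1 ℂ A₂ p₁ q₁ a2).2.2.2.2.2.2.2.2.1.nonempty.image h
  rcases (hSCL ℂ J hSJ).2.1 p q D₁ D₂ (h '' A₁) (h '' A₂) ⟨hD₁, hD₂, hDi, hDu⟩ hA1c hA2c hAu hAi hn1 hn2 with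
    ⟨e1, e2⟩ | ⟨e1, e2⟩
  · refine ⟨h '' P₀, h '' C₁, h '' C₂, ⟨⟨hD₁, hD₂, hDi, hDu⟩, hP, hPJ, hEu, hEi, ?_, ?_⟩, ?_, ?_⟩
    · rw [hE1, e1]
    · rw [hE2, e2]
    · rw [← e1]; exact m1
    · rw [← e2]; exact m2
  · refine ⟨h '' P₀, h '' C₂, h '' C₁, ⟨⟨hD₁, hD₂, hDi, hDu⟩, hP, hPJ, ?_, ?_, ?_, ?_⟩, ?_, ?_⟩
    · rw [union_comm]; exact hEu
    · rw [inter_comm]; exact hEi
    · rw [hE2, e2]
    · rw [hE1, e1]
    · rw [← e2]; exact m2
    · rw [← e1]; exact m1

end Pool.Agent.Helper15.TW
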