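import Pool.Agent.Helper13.TW.StD

/-!
# Project TW: module S3A (subdivision along one curve)
-/

set_option autoImplicit false

namespace Pool.Agent.Helper15.TW

open Set Topology Pool.Agent.Helper13.TR Pool.Agent.Helper13.TW

section

variable {S : Type} [MetricSpace S]

/-- an arc is irreducible between its end points -/
private lemma arc_irr (hARB : StARB) {P P' : Set S} {p q : S} (hP' : IsArc P' p q) (hP : IsPreconnected P)
    (hsub : P ⊆ P') (hp : p ∈ P) (hq : q ∈ P) : P = P' := by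
  refine hsub.antisymm fun c hc => ?_
  by_contra hcP
  have hcp : c ≠ p := fun h => hcP (h ▸ hp)
  have hcq : c ≠ q := fun h => hcP (h ▸ hq)
  obtain ⟨D₁, D₂, h1, h2, hu, hi⟩ := hARB.2.1 S P' p q c hP' hc hcp hcq
  have k1 := hARB.1 S D₁ p c h1
  have k2 := hARB.1 S D₂ c q h2
  have c1 : IsClosed D₁ := k1.2.1.isClosed
  have c2 : IsClosed D₂ := k2.2.1.isClosed
  obtain ⟨w, hw, hw'⟩ := isPreconnected_closed_iff.1 hP D₁ D₂ c1 c2 (by rw [hu]; exact hsub)
    ⟨p, hp, k1.2.2.1⟩ ⟨q, hq, k2.2.2.2.1⟩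
  rw [hi, mem_singleton_iff] at hw'
  exact hcP (hw' ▸ hw)

private lemma clo_arc (hARB : StARB) {P : Set S} {p q : S} (h : IsArc P p q) : closure (P \ {p, q}) = P := by
  obtain ⟨-, hc, hp, hq, -, -, -, -, -, hp', hq', -⟩ := hARB.1 S P p q h
  refine (closure_minimal diff_subset hc.isClosed).antisymm fun c hcP => ?_
  by_cases h1 : c = p
  · rw [h1]; exact hp'
  · by_cases h2 : c = q
    · rw [h2]; exact hq'
    · exact subset_closure ⟨hcP, by simp [h1, h2]⟩

private lemma arc_eq (hARB : StARB) {P P' : Set S} {p q p' q' : S} (h : IsArc P p q) (h' : IsArc P' p' q')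
    (hs : P \ {p, q} ⊆ P' \ {p', q'}) (hp : p ∉ P' \ {p', q'}) (hq : q ∉ P' \ {p', q'}) : P = P' := by
  have hPP : P ⊆ P' := by
    rw [← clo_arc hARB h]
    exact closure_minimal (hs.trans diff_subset) (hARB.1 S P' p' q' h').2.1.isClosed
  obtain ⟨-, -, hpP, hqP, hne, hcon, -⟩ := hARB.1 S P p q h
  have hpp : p = p' ∨ p = q' := by
    by_contra hc
    exact hp ⟨hPP hpP, by simpa using hc⟩
  have hqq : q = p' ∨ q = q' := by
    by_contra hc
    exact hq ⟨hPP hqP, by simpa using hc⟩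
  have hconn : IsPreconnected P := hcon.isConnected.isPreconnected
  rcases hpp with rfl | rfl
  · rcases hqq with rfl | rfl
    · exact absurd rfl hne
    · exact arc_irr hARB h' hconn hPP hpP hqP
  · rcases hqq with rfl | rfl
    · exact arc_irr hARB h' hconn hPP hqP hpP
    · exact absurd rfl hne

/-- a preconnected set in the union of two disjoint open sets -/
private lemma side {A U₁ U₂ : Set S} (hA : IsPreconnected A) (h1 : IsOpen U₁) (h2 : IsOpen U₂)
    (hd : U₁ ∩ U₂ = ∅) (hs : A ⊆ U₁ ∪ U₂) {x : S} (hx : x ∈ A) (hx1 : x ∈ U₁) : A ⊆ U₁ := by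
  intro y hy
  rcases hs hy with h | h
  · exact h
  · exfalso
    obtain ⟨w, hw, hw1, hw2⟩ := hA U₁ U₂ h1 h2 hs ⟨x, hx, hx1⟩ ⟨y, hy, h⟩
    have : w ∈ U₁ ∩ U₂ := ⟨hw1, hw2⟩
    rw [hd] at this
    exact this

end

theorem hS3A (hPRE : StPRE) (hCMP : StCMP) (hJIN : StJIN) (hSMC : StSMC) (hTHE : StTHE) (hTWO : StTWO)
    (hCLS : StCLS) (hSCL : StSCL) (hARB : StARB) : StS3A := by
  intro S _ _ _ ω V hGR hLH J K hJ hK η F G hη hF hG
  have insJ : ∀ (J' : Set S) (x : S), x ∈ Ins ω J' → x ∉ J' := fun J' x h => h.1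
  -- Step B
  have stepB : ∀ J : Set S, Cel ω V J → (∃ r₁ r₂ : S, r₁ ≠ r₂ ∧ r₁ ∈ K \ Ins ω J ∧ r₂ ∈ K \ Ins ω J) →
      GS ω (fun J' => ¬((cl ω J' ∩ F).Nonempty ∧ (cl ω J' ∩ G).Nonempty)) J := by
    intro J hJ hr
    obtain ⟨δ, hδ, hsmc⟩ := hSMC S ω V hGR hLH J hJ (η / 2) (half_pos hη)
    have claim : ∀ (n : ℕ) (J' : Set S), Cel ω V J' → Ins ω J' ⊆ Ins ω J →
        (∀ z ∈ K ∩ Ins ω J', connectedComponentIn (K ∩ Ins ω J') z = connectedComponentIn (K ∩ Ins ω J) z) →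
        {C : Set S | (∃ z ∈ K ∩ Ins ω J', C = connectedComponentIn (K ∩ Ins ω J') z) ∧
          δ ≤ Metric.diam C}.ncard ≤ n →
        GS ω (fun J' => ¬((cl ω J' ∩ F).Nonempty ∧ (cl ω J' ∩ G).Nonempty)) J' := by
      intro n
      induction n with
      | zero =>
        intro J' hJ' hsub hcc hn
        have hr' : ∃ r₁ r₂ : S, r₁ ≠ r₂ ∧ r₁ ∈ K \ Ins ω J' ∧ r₂ ∈ K \ Ins ω J' := by
          obtain ⟨r₁, r₂, h, h1, h2⟩ := hr
          exact ⟨r₁, r₂, h, ⟨h1.1, fun k => h1.2 (hsub k)⟩, ⟨h2.1, fun k => h2.2 (hsub k)⟩⟩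
        obtain ⟨cmp1, -, cmp3⟩ := hCMP S ω V hGR J' hJ'.1 K hK.1.1 hr'
        have hfin := cmp3 δ hδ
        have hempty : {C : Set S | (∃ z ∈ K ∩ Ins ω J', C = connectedComponentIn (K ∩ Ins ω J') z) ∧
          δ ≤ Metric.diam C} = ∅ := by
          rw [← Set.ncard_eq_zero hfin]
          omega
        apply GS.leaf
        rintro ⟨⟨x₀, hx₀, hxF⟩, ⟨y₀, hy₀, hyG⟩⟩
        have hcl := (hCLS S ω V hGR J' hJ'.1).2.2
        obtain ⟨⟨oK, -⟩, ⟨oK', -⟩, -, sepK, -⟩ := hTWO S ω V hGR K hK.1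
        -- the point x
        have ex : ∃ x ∈ Ins ω J', x ∈ Ins ω K ∧ ∀ k ∈ K, η / 2 < dist x k := by
          have h1 : x₀ ∈ closure (Ins ω J') := by rw [hcl]; exact hx₀
          obtain ⟨hxK, hxd⟩ := hF x₀ hxF
          have h2 : Ins ω K ∩ Metric.ball x₀ (η / 2) ∈ 𝓝 x₀ :=
            Filter.inter_mem (oK.mem_nhds hxK) (Metric.ball_mem_nhds _ (half_pos hη))
          obtain ⟨x, ⟨hx1, hx2⟩, hx3⟩ := mem_closure_iff_nhds.1 h1 _ h2
          refine ⟨x, hx3, hx1, fun k hk => ?_⟩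
          have h3 := hxd k hk
          have h4 := dist_triangle x₀ x k
          rw [Metric.mem_ball, dist_comm] at hx2
          linarith
        have ey : ∃ y ∈ Ins ω J', y ∉ Ins ω K ∧ ∀ k ∈ K, η / 2 < dist y k := by
          have h1 : y₀ ∈ closure (Ins ω J') := by rw [hcl]; exact hy₀
          obtain ⟨hyK, hyd⟩ := hG y₀ hyG
          have h2 : Out ω K ∩ Metric.ball y₀ (η / 2) ∈ 𝓝 y₀ :=
            Filter.inter_mem (oK'.mem_nhds hyK) (Metric.ball_mem_nhds _ (half_pos hη))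
          obtain ⟨y, ⟨hy1, hy2⟩, hy3⟩ := mem_closure_iff_nhds.1 h1 _ h2
          refine ⟨y, hy3, fun h => hy1 (Or.inr h), fun k hk => ?_⟩
          have h3 := hyd k hk
          have h4 := dist_triangle y₀ y k
          rw [Metric.mem_ball, dist_comm] at hy2
          linarith
        obtain ⟨x, xJ, xK, xd⟩ := ex
        obtain ⟨y, yJ, yK, yd⟩ := ey
        have hnk : ∀ w : S, (∀ k ∈ K, η / 2 < dist w k) → w ∉ K := by
          intro w hw hwK
          have := hw w hwK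
          rw [dist_self] at this
          linarith
        have nj : ¬ JoinedIn (Ins ω J' \ K) x y := by
          intro hj
          exact yK ((sepK x y (hj.mono fun w hw => hw.2)).1 xK)
        have nj2 : ∃ (p q : S) (D₁ D₂ P : Set S), Spl J' p q D₁ D₂ ∧ Crs ω J' p q P ∧ P ⊆ K ∧
            ¬ (x ∈ Ins ω (D₁ ∪ P) ↔ y ∈ Ins ω (D₁ ∪ P)) := by
          by_contra hc
          push Not at hc
          refine nj (hJIN S ω V hGR J' hJ' K hK.1.1 hr' x ⟨xJ, hnk x xd⟩ y ⟨yJ, hnk y yd⟩ ?_)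
          intro p q D₁ D₂ P h1 h2 h3
          have := hc p q D₁ D₂ P h1 h2 h3
          tauto
        obtain ⟨p, q, D₁', D₂', P, hspl', hcrs', hPK, hdiff⟩ := nj2
        -- a point of the open arc
        obtain ⟨z, hz⟩ : (P \ {p, q}).Nonempty := (hARB.1 S P p q hcrs'.1).2.2.2.2.2.2.2.2.1.nonempty
        have hzJ' : z ∈ Ins ω J' := hcrs'.2.2 hz
        have hzK : z ∈ K := hPK hz.1
        obtain ⟨p', q', P', hcrs1, -, -, -, hcomp1⟩ := cmp1 z ⟨hzK, hzJ'⟩
        have hPp : P = P' := by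
          refine arc_eq hARB hcrs'.1 hcrs1.1 ?_ ?_ ?_
          · rw [← hcomp1]
            exact ((hARB.1 S P p q hcrs'.1).2.2.2.2.2.2.2.2.1.isConnected.isPreconnected).subset_connectedComponentIn
              hz (fun w hw => ⟨hPK hw.1, hcrs'.2.2 hw⟩)
          · intro h
            have : p ∈ P ∩ J' := by rw [hcrs'.2.1]; simp
            exact insJ J' p (hcrs1.2.2 h) this.2
          · intro h
            have : q ∈ P ∩ J' := by rw [hcrs'.2.1]; simp
            exact insJ J' q (hcrs1.2.2 h) this.2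
        have hclo : closure (connectedComponentIn (K ∩ Ins ω J') z) = P := by
          rw [hcomp1, clo_arc hARB hcrs1.1, hPp]
        have hdiam : Metric.diam P < δ := by
          by_contra hc
          push Not at hc
          have : connectedComponentIn (K ∩ Ins ω J') z ∈ {C : Set S | (∃ z ∈ K ∩ Ins ω J',
              C = connectedComponentIn (K ∩ Ins ω J') z) ∧ δ ≤ Metric.diam C} := by
            refine ⟨⟨z, ⟨hzK, hzJ'⟩, rfl⟩, ?_⟩
            rw [← Metric.diam_closure, hclo]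
            exact hc
          rw [hempty] at this
          exact this
        -- the same arc as a crosscut of J
        obtain ⟨cmpJ, -, -⟩ := hCMP S ω V hGR J hJ.1 K hK.1.1 hr
        obtain ⟨p₂, q₂, P₂, hcrs2, -, -, -, hcomp2⟩ := cmpJ z ⟨hzK, hsub hzJ'⟩
        have hPp2 : P₂ = P := by
          rw [← clo_arc hARB hcrs2.1, ← hcomp2, ← hcc z ⟨hzK, hzJ'⟩, hclo]
        subst hPp2
        have hpJ : p₂ ∈ J := by
          have : p₂ ∈ P₂ ∩ J := by rw [hcrs2.2.1]; simp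
          exact this.2
        have hqJ : q₂ ∈ J := by
          have : q₂ ∈ P₂ ∩ J := by rw [hcrs2.2.1]; simp
          exact this.2
        obtain ⟨D₁, D₂, hspl⟩ := (hSCL S J hJ.1.1).1 p₂ hpJ q₂ hqJ (hARB.1 S P₂ p₂ q₂ hcrs2.1).2.2.2.2.1
        obtain ⟨ce1, ce2, idis, iun, -⟩ := hTHE S ω V hGR J hJ p₂ q₂ D₁ D₂ P₂ hspl hcrs2
        obtain ⟨ce1', ce2', idis', iun', -⟩ := hTHE S ω V hGR J' hJ' p q D₁' D₂' P₂ hspl' hcrs'
        obtain ⟨⟨o1, -⟩, -, cpt1, -⟩ := hTWO S ω V hGR _ ce1.1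
        obtain ⟨⟨o2, -⟩, -, cpt2, -⟩ := hTWO S ω V hGR _ ce2.1
        obtain ⟨⟨o1', pc1'⟩, -⟩ := hTWO S ω V hGR _ ce1'.1
        obtain ⟨⟨o2', pc2'⟩, -⟩ := hTWO S ω V hGR _ ce2'.1
        obtain ⟨⟨oJ', -⟩, -⟩ := hTWO S ω V hGR J' hJ'.1
        -- x, y are in different pieces of J'
        have inP : ∀ w ∈ Ins ω J', w ∉ P₂ → w ∈ Ins ω (D₁' ∪ P₂) ∪ Ins ω (D₂' ∪ P₂) := by
          intro w hw hwP
          rw [iun']
          exact ⟨hw, hwP⟩
        have sub1 : Ins ω (D₁' ∪ P₂) ⊆ Ins ω (D₁ ∪ P₂) ∪ Ins ω (D₂ ∪ P₂) := by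
          rw [iun]
          intro w hw
          have : w ∈ Ins ω J' \ P₂ := by rw [← iun']; exact Or.inl hw
          exact ⟨hsub this.1, this.2⟩
        have sub2 : Ins ω (D₂' ∪ P₂) ⊆ Ins ω (D₁ ∪ P₂) ∪ Ins ω (D₂ ∪ P₂) := by
          rw [iun]
          intro w hw
          have : w ∈ Ins ω J' \ P₂ := by rw [← iun']; exact Or.inr hw
          exact ⟨hsub this.1, this.2⟩
        -- points near z on both sides of P in J
        have near1 : ∃ u ∈ Ins ω (D₁ ∪ P₂), u ∈ Ins ω J' := by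
          have h1 : z ∈ closure (Ins ω (D₁ ∪ P₂)) := (hCLS S ω V hGR _ ce1.1).1 (Or.inr hz.1)
          obtain ⟨u, hu1, hu2⟩ := mem_closure_iff_nhds.1 h1 _ (oJ'.mem_nhds hzJ')
          exact ⟨u, hu2, hu1⟩
        have near2 : ∃ u ∈ Ins ω (D₂ ∪ P₂), u ∈ Ins ω J' := by
          have h1 : z ∈ closure (Ins ω (D₂ ∪ P₂)) := (hCLS S ω V hGR _ ce2.1).1 (Or.inr hz.1)
          obtain ⟨u, hu1, hu2⟩ := mem_closure_iff_nhds.1 h1 _ (oJ'.mem_nhds hzJ')
          exact ⟨u, hu2, hu1⟩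
        obtain ⟨u₁, hu₁, hu₁'⟩ := near1
        obtain ⟨u₂, hu₂, hu₂'⟩ := near2
        have hu₁P : u₁ ∉ P₂ := fun h => insJ _ _ hu₁ (Or.inr h)
        have hu₂P : u₂ ∉ P₂ := fun h => insJ _ _ hu₂ (Or.inr h)
        have idis2 : Ins ω (D₂ ∪ P₂) ∩ Ins ω (D₁ ∪ P₂) = ∅ := by rw [inter_comm]; exact idis
        have dj : ∀ w, w ∈ Ins ω (D₁ ∪ P₂) → w ∈ Ins ω (D₂ ∪ P₂) → False := by
          intro w h1 h2
          have : w ∈ Ins ω (D₁ ∪ P₂) ∩ Ins ω (D₂ ∪ P₂) := ⟨h1, h2⟩
          rw [idis] at this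
          exact this
        have pre1 := pc1'.isConnected.isPreconnected
        have pre2 := pc2'.isConnected.isPreconnected
        -- each piece of J' lies in one piece of J
        have alt : ∀ A : Set S, IsPreconnected A → A ⊆ Ins ω (D₁ ∪ P₂) ∪ Ins ω (D₂ ∪ P₂) → A.Nonempty →
            A ⊆ Ins ω (D₁ ∪ P₂) ∨ A ⊆ Ins ω (D₂ ∪ P₂) := by
          rintro A hA hs ⟨w, hw⟩
          rcases hs hw with h | h
          · exact Or.inl (side hA o1 o2 idis hs hw h)
          · refine Or.inr (side hA o2 o1 idis2 (fun v hv => (hs hv).symm) hw h)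
        have sides : (Ins ω (D₁' ∪ P₂) ⊆ Ins ω (D₁ ∪ P₂) ∧ Ins ω (D₂' ∪ P₂) ⊆ Ins ω (D₂ ∪ P₂)) ∨
            (Ins ω (D₁' ∪ P₂) ⊆ Ins ω (D₂ ∪ P₂) ∧ Ins ω (D₂' ∪ P₂) ⊆ Ins ω (D₁ ∪ P₂)) := by
          rcases alt _ pre1 sub1 pc1'.nonempty with h1 | h1
          · rcases alt _ pre2 sub2 pc2'.nonempty with h2 | h2
            · exfalso
              rcases inP u₂ hu₂' hu₂P with h | h
              · exact dj u₂ (h1 h) hu₂
              · exact dj u₂ (h2 h) hu₂
            · exact Or.inl ⟨h1, h2⟩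
          · rcases alt _ pre2 sub2 pc2'.nonempty with h2 | h2
            · exact Or.inr ⟨h1, h2⟩
            · exfalso
              rcases inP u₁ hu₁' hu₁P with h | h
              · exact dj u₁ hu₁ (h1 h)
              · exact dj u₁ hu₁ (h2 h)
        have hxP : x ∉ P₂ := fun h => hnk x xd (hPK h)
        have hyP : y ∉ P₂ := fun h => hnk y yd (hPK h)
        have hxy : (x ∈ Ins ω (D₁ ∪ P₂) ∧ y ∈ Ins ω (D₂ ∪ P₂)) ∨
            (x ∈ Ins ω (D₂ ∪ P₂) ∧ y ∈ Ins ω (D₁ ∪ P₂)) := by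
          by_cases hx1 : x ∈ Ins ω (D₁' ∪ P₂)
          · have hy1 : y ∉ Ins ω (D₁' ∪ P₂) := fun h => hdiff ⟨fun _ => h, fun _ => hx1⟩
            have hy2 := (inP y yJ hyP).resolve_left hy1
            rcases sides with ⟨s1, s2⟩ | ⟨s1, s2⟩
            · exact Or.inl ⟨s1 hx1, s2 hy2⟩
            · exact Or.inr ⟨s1 hx1, s2 hy2⟩
          · have hx2 := (inP x xJ hxP).resolve_left hx1
            have hy1 : y ∈ Ins ω (D₁' ∪ P₂) := by
              by_contra h
              exact hdiff ⟨fun k => absurd k hx1, fun k => absurd k h⟩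
            rcases sides with ⟨s1, s2⟩ | ⟨s1, s2⟩
            · exact Or.inr ⟨s2 hx2, s1 hy1⟩
            · exact Or.inl ⟨s2 hx2, s1 hy1⟩
        have fin : ∀ D : Set S, IsCompact (cl ω (D ∪ P₂)) → Metric.diam (cl ω (D ∪ P₂)) < η / 2 →
            ∀ w : S, w ∈ Ins ω (D ∪ P₂) → (∀ k ∈ K, η / 2 < dist w k) → False := by
          intro D hcpt hd w hw hwd
          have h1 := Metric.dist_le_diam_of_mem hcpt.isBounded (x := w) (y := z) (Or.inr hw)
            (Or.inl (Or.inr hz.1))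
          have h2 := hwd z hzK
          linarith
        rcases hsmc p₂ q₂ D₁ D₂ P₂ hspl hcrs2 hdiam with hd | hd
        · rcases hxy with ⟨h1, h2⟩ | ⟨h1, h2⟩
          · exact fin D₁ cpt1 hd x h1 xd
          · exact fin D₁ cpt1 hd y h2 yd
        · rcases hxy with ⟨h1, h2⟩ | ⟨h1, h2⟩
          · exact fin D₂ cpt2 hd y h2 yd
          · exact fin D₂ cpt2 hd x h1 xd
      | succ n ih =>
        intro J' hJ' hsub hcc hn
        have hr' : ∃ r₁ r₂ : S, r₁ ≠ r₂ ∧ r₁ ∈ K \ Ins ω J' ∧ r₂ ∈ K \ Ins ω J' := by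
          obtain ⟨r₁, r₂, h, h1, h2⟩ := hr
          exact ⟨r₁, r₂, h, ⟨h1.1, fun k => h1.2 (hsub k)⟩, ⟨h2.1, fun k => h2.2 (hsub k)⟩⟩
        obtain ⟨cmp1, -, cmp3⟩ := hCMP S ω V hGR J' hJ'.1 K hK.1.1 hr'
        have hfin := cmp3 δ hδ
        by_cases hemp : {C : Set S | (∃ z ∈ K ∩ Ins ω J', C = connectedComponentIn (K ∩ Ins ω J') z) ∧
          δ ≤ Metric.diam C} = ∅
        · exact ih J' hJ' hsub hcc (by rw [hemp, Set.ncard_empty]; exact Nat.zero_le _)
        · obtain ⟨C, ⟨z, hz, hCz⟩, hCd⟩ := Set.nonempty_iff_ne_empty.2 hemp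
          obtain ⟨p, q, P, hcrs, hzP, hPK, -, hcomp⟩ := cmp1 z hz
          have hpJ : p ∈ J' := by
            have : p ∈ P ∩ J' := by rw [hcrs.2.1]; simp
            exact this.2
          have hqJ : q ∈ J' := by
            have : q ∈ P ∩ J' := by rw [hcrs.2.1]; simp
            exact this.2
          obtain ⟨D₁, D₂, hspl⟩ := (hSCL S J' hJ'.1.1).1 p hpJ q hqJ (hARB.1 S P p q hcrs.1).2.2.2.2.1
          obtain ⟨ce1, ce2, idis, iun, -⟩ := hTHE S ω V hGR J' hJ' p q D₁ D₂ P hspl hcrs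
          obtain ⟨⟨o1, -⟩, -⟩ := hTWO S ω V hGR _ ce1.1
          obtain ⟨⟨o2, -⟩, -⟩ := hTWO S ω V hGR _ ce2.1
          -- one piece
          have piece : ∀ (U U' : Set S), IsOpen U → IsOpen U' → U ∩ U' = ∅ → U ∪ U' = Ins ω J' \ P →
              ∀ z' ∈ K ∩ U, connectedComponentIn (K ∩ U) z' = connectedComponentIn (K ∩ Ins ω J') z' := by
            intro U U' oU oU' hd hu z' hz'
            have hUs : U ⊆ Ins ω J' \ P := by rw [← hu]; exact subset_union_left
            have hz'J : z' ∈ K ∩ Ins ω J' := ⟨hz'.1, (hUs hz'.2).1⟩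
            apply Subset.antisymm
            · exact connectedComponentIn_mono z' (fun w hw => ⟨hw.1, (hUs hw.2).1⟩)
            · refine isPreconnected_connectedComponentIn.subset_connectedComponentIn
                (mem_connectedComponentIn hz'J) ?_
              have hPd : ∀ w ∈ connectedComponentIn (K ∩ Ins ω J') z', w ∉ P := by
                intro w hw hwP
                have hwJ : w ∈ Ins ω J' := (connectedComponentIn_subset _ _ hw).2
                have hwC : w ∈ P \ {p, q} := by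
                  refine ⟨hwP, ?_⟩
                  rintro (h | h)
                  · exact insJ J' w hwJ (h ▸ hpJ)
                  · rw [mem_singleton_iff] at h
                    exact insJ J' w hwJ (h ▸ hqJ)
                rw [← hcomp] at hwC
                have e1 := connectedComponentIn_eq hw
                have e2 := connectedComponentIn_eq hwC
                have : z' ∈ connectedComponentIn (K ∩ Ins ω J') z := by
                  rw [e2, ← e1]
                  exact mem_connectedComponentIn hz'J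
                rw [hcomp] at this
                exact (hUs hz'.2).2 this.1
              have hs : connectedComponentIn (K ∩ Ins ω J') z' ⊆ U ∪ U' := by
                intro w hw
                rw [hu]
                exact ⟨(connectedComponentIn_subset _ _ hw).2, hPd w hw⟩
              have := side isPreconnected_connectedComponentIn oU oU' hd hs (mem_connectedComponentIn hz'J) hz'.2
              exact fun w hw => ⟨(connectedComponentIn_subset _ _ hw).1, this hw⟩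
          have fin : ∀ (D : Set S) (U' : Set S), Cel ω V (D ∪ P) → IsOpen (Ins ω (D ∪ P)) → IsOpen U' →
              Ins ω (D ∪ P) ∩ U' = ∅ → Ins ω (D ∪ P) ∪ U' = Ins ω J' \ P →
              GS ω (fun J' => ¬((cl ω J' ∩ F).Nonempty ∧ (cl ω J' ∩ G).Nonempty)) (D ∪ P) := by
            intro D U' hce oU oU' hd hu
            have hUs : Ins ω (D ∪ P) ⊆ Ins ω J' \ P := by rw [← hu]; exact subset_union_left
            have hpc := piece _ U' oU oU' hd hu
            refine ih (D ∪ P) hce (fun w hw => hsub (hUs hw).1) ?_ ?_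
            · intro z' hz'
              rw [hpc z' hz']
              exact hcc z' ⟨hz'.1, (hUs hz'.2).1⟩
            · have hss : {C : Set S | (∃ z ∈ K ∩ Ins ω (D ∪ P), C = connectedComponentIn (K ∩ Ins ω (D ∪ P)) z) ∧
                  δ ≤ Metric.diam C} ⊂ {C : Set S | (∃ z ∈ K ∩ Ins ω J',
                    C = connectedComponentIn (K ∩ Ins ω J') z) ∧ δ ≤ Metric.diam C} := by
                refine (Set.ssubset_iff_of_subset ?_).2 ?_
                · rintro C' ⟨⟨z', hz', hC'⟩, hd'⟩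
                  exact ⟨⟨z', ⟨hz'.1, (hUs hz'.2).1⟩, by rw [hC', hpc z' hz']⟩, hd'⟩
                · refine ⟨C, ⟨⟨z, hz, hCz⟩, hCd⟩, ?_⟩
                  rintro ⟨⟨z', hz', hC'⟩, -⟩
                  have h1 : z ∈ C := by rw [hCz]; exact mem_connectedComponentIn hz
                  rw [hC'] at h1
                  have h2 := (connectedComponentIn_subset _ _ h1).2
                  exact (hUs h2).2 hzP
              have := Set.ncard_lt_ncard hss hfin
              omega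
          refine GS.node J' p q D₁ D₂ P hspl hcrs ?_ ?_
          · exact fin D₁ (Ins ω (D₂ ∪ P)) ce1 o1 o2 idis iun
          · exact fin D₂ (Ins ω (D₁ ∪ P)) ce2 o2 o1 (by rw [inter_comm]; exact idis)
              (by rw [union_comm]; exact iun)
    exact claim _ J hJ Subset.rfl (fun z _ => rfl) le_rfl
  -- Step A
  by_cases hr : ∀ r₁ ∈ K \ Ins ω J, ∀ r₂ ∈ K \ Ins ω J, r₁ = r₂
  · obtain ⟨p, q, P, hcrs, r₁, hr₁, r₂, hr₂, hne⟩ := hPRE S ω V hGR J hJ.1 K hK.1.1 hr
    have hpJ : p ∈ J := by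
      have : p ∈ P ∩ J := by rw [hcrs.2.1]; simp
      exact this.2
    have hqJ : q ∈ J := by
      have : q ∈ P ∩ J := by rw [hcrs.2.1]; simp
      exact this.2
    obtain ⟨D₁, D₂, hspl⟩ := (hSCL S J hJ.1.1).1 p hpJ q hqJ (hARB.1 S P p q hcrs.1).2.2.2.2.1
    obtain ⟨ce1, ce2, -⟩ := hTHE S ω V hGR J hJ p q D₁ D₂ P hspl hcrs
    refine GS.node J p q D₁ D₂ P hspl hcrs ?_ ?_
    · exact stepB _ ce1 ⟨r₁, r₂, hne, ⟨hr₁.2, fun h => insJ _ _ h (Or.inr hr₁.1)⟩,
        ⟨hr₂.2, fun h => insJ _ _ h (Or.inr hr₂.1)⟩⟩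
    · exact stepB _ ce2 ⟨r₁, r₂, hne, ⟨hr₁.2, fun h => insJ _ _ h (Or.inr hr₁.1)⟩,
        ⟨hr₂.2, fun h => insJ _ _ h (Or.inr hr₂.1)⟩⟩
  · push Not at hr
    obtain ⟨r₁, h1, r₂, h2, hne⟩ := hr
    exact stepB J hJ ⟨r₁, r₂, hne, h1, h2⟩

end Pool.Agent.Helper15.TW
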