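import Pool.Agent.Helper54.PT.Defs
import Pool.Agent.Helper77.TW.A12A13

set_option autoImplicit false

namespace Pool.Agent.Helper15.TW

open Finset Filter Topology Pool.Agent.Helper54.PT

theorem geom_le (x : ℝ) (h0 : 0 ≤ x) (h1 : x < 1) (M : ℕ) :
    ∑ k ∈ Icc 1 M, x ^ k ≤ 1 / (1 - x) := by
  have h2 : ∑ k ∈ Icc 1 M, x ^ k ≤ ∑' k, x ^ k :=
    (summable_geometric_of_lt_one h0 h1).sum_le_tsum _ (fun k _ => pow_nonneg h0 k)
  rw [tsum_geometric_of_lt_one h0 h1] at h2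
  simpa using h2

theorem sum_pow_le (q : ℝ) (hq : 2 ≤ q) (J : ℕ) : ∑ j ∈ range (J + 1), q ^ j ≤ 2 * q ^ J := by
  induction J with
  | zero => simp
  | succ J ih =>
    rw [sum_range_succ, pow_succ]
    have h1 : 0 < q ^ J := by positivity
    nlinarith

theorem half_pow_le (k : ℕ) : (1 / 2 : ℝ) ^ (k / 2) ≤ 2 * (3 / 4 : ℝ) ^ k := by
  have h1 : k = 2 * (k / 2) + k % 2 := (Nat.div_add_mod k 2).symm
  have h2 : k % 2 < 2 := Nat.mod_lt _ (by norm_num)
  have h3 : (3 / 4 : ℝ) ^ k = (9 / 16 : ℝ) ^ (k / 2) * (3 / 4 : ℝ) ^ (k % 2) := by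
    conv_lhs => rw [h1]
    rw [pow_add, pow_mul]
    norm_num
  rw [h3]
  have h4 : (1 / 2 : ℝ) ^ (k / 2) ≤ (9 / 16 : ℝ) ^ (k / 2) :=
    pow_le_pow_left₀ (by norm_num) (by norm_num) _
  have h5 : (1 / 2 : ℝ) ≤ (3 / 4 : ℝ) ^ (k % 2) := by
    interval_cases (k % 2) <;> norm_num
  have h6 : 0 ≤ (9 / 16 : ℝ) ^ (k / 2) := by positivity
  nlinarith

section

variable {ℓ : ℕ} [Fact ℓ.Prime] {σ : Type} [Fintype σ] (X : PData ℓ σ)

theorem norm_ee (x : ZMod ℓ) : ‖ee x‖ = 1 := AddChar.norm_apply _ _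

/-- the number of primes of `E` of degree `k`. -/
noncomputable def ek (E : Finset X.P) (k : ℕ) : ℕ := ((X.pr k).filter (fun p => p ∈ E)).card

omit [Fact ℓ.Prime] [Fintype σ] in
theorem ek_eq (E : Finset X.P) (k : ℕ) : ek X E k = (E.filter (fun p => X.deg p = k)).card := by
  unfold ek
  congr 1
  ext p
  rw [mem_filter, mem_filter, X.mem_pr]
  exact and_comm

omit [Fact ℓ.Prime] [Fintype σ] in
theorem ek_le (E : Finset X.P) (q : ℕ) (hpnt : ∀ k, k * (X.pr k).card ≤ q ^ k) (k : ℕ) :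
    k * ek X E k ≤ q ^ k :=
  (Nat.mul_le_mul_left k (card_filter_le _ _)).trans (hpnt k)

omit [Fact ℓ.Prime] [Fintype σ] in
theorem sum_ek_le (E : Finset X.P) (M : ℕ) : ∑ k ∈ Icc 1 M, k * ek X E k ≤ X.dg E := by
  have h1 : ∀ k, k * ek X E k = ∑ p ∈ E, if X.deg p = k then k else 0 := by
    intro k
    rw [ek_eq, ← sum_filter, sum_const, smul_eq_mul, mul_comm]
  simp only [h1]
  rw [sum_comm]
  unfold PData.dg
  refine sum_le_sum fun p _ => ?_
  rw [sum_ite_eq]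
  split_ifs <;> omega

/-- the weight function. -/
noncomputable def et (E : Finset X.P) (w : ℝ) (χ : X.P → ℂ) (p : X.P) : ℂ :=
  if p ∈ E then 0 else (w : ℂ) * χ p

omit [Fact ℓ.Prime] [Fintype σ] in
theorem norm_et_le (E : Finset X.P) (w : ℝ) (hw0 : 0 ≤ w) (hw1 : w ≤ 1) (χ : X.P → ℂ)
    (hχ : ∀ p, ‖χ p‖ = 1) (p : X.P) : ‖et X E w χ p‖ ≤ 1 := by
  unfold et
  split_ifs
  · simp
  · rw [norm_mul, hχ, mul_one, Complex.norm_real, Real.norm_eq_abs, abs_of_nonneg hw0]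
    exact hw1

omit [Fact ℓ.Prime] [Fintype σ] in
theorem filter_sum_eq (E : Finset X.P) (w : ℝ) (χ : X.P → ℂ) (m : ℕ) :
    ∑ D ∈ (X.sq m).filter (fun D => Disjoint D E), ∏ p ∈ D, ((w : ℂ) * χ p) =
      ∑ D ∈ X.sq m, ∏ p ∈ D, et X E w χ p := by
  rw [sum_filter]
  refine sum_congr rfl fun D _ => ?_
  by_cases h : Disjoint D E
  · rw [if_pos h]
    refine prod_congr rfl fun p hp => ?_
    unfold et
    rw [if_neg (disjoint_left.mp h hp)]
  · rw [if_neg h]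
    rw [not_disjoint_iff] at h
    obtain ⟨p, hp, hp'⟩ := h
    refine (prod_eq_zero hp ?_).symm
    unfold et
    rw [if_pos hp']

omit [Fact ℓ.Prime] [Fintype σ] in
theorem sum_et_le (E G : Finset X.P) (hGE : G ⊆ E) (w : ℝ) (hw0 : 0 ≤ w) (hw1 : w ≤ 1)
    (χ : X.P → ℂ) (hχ : ∀ p, ‖χ p‖ = 1) (k : ℕ) :
    ‖∑ p ∈ X.pr k, et X E w χ p‖ ≤
      ‖∑ p ∈ (X.pr k).filter (fun p => p ∉ G), χ p‖ + ek X E k := by
  have h1 : ∑ p ∈ X.pr k, et X E w χ p = (w : ℂ) *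
      (∑ p ∈ (X.pr k).filter (fun p => p ∉ G), χ p -
        ∑ p ∈ ((X.pr k).filter (fun p => p ∉ G)).filter (fun p => p ∈ E), χ p) := by
    have h2 := sum_filter_add_sum_filter_not ((X.pr k).filter (fun p => p ∉ G))
      (fun p => p ∈ E) χ
    rw [← h2, add_sub_cancel_left, filter_filter]
    have h3 : (X.pr k).filter (fun p => p ∉ G ∧ p ∉ E) =
        (X.pr k).filter (fun p => p ∉ E) := by
      apply filter_congr
      intro p _
      exact ⟨fun h => h.2, fun h => ⟨fun h' => h (hGE h'), h⟩⟩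
    rw [h3, mul_sum, sum_filter]
    refine sum_congr rfl fun p _ => ?_
    unfold et
    by_cases h : p ∈ E <;> simp [h]
  rw [h1, norm_mul, Complex.norm_real, Real.norm_eq_abs, abs_of_nonneg hw0]
  have h4 : ‖∑ p ∈ ((X.pr k).filter (fun p => p ∉ G)).filter (fun p => p ∈ E), χ p‖ ≤
      ek X E k := by
    refine (norm_sum_le _ _).trans ?_
    simp only [hχ, sum_const, nsmul_eq_mul, mul_one]
    unfold ek
    exact_mod_cast card_le_card (by
      intro p hp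
      rw [mem_filter, mem_filter] at hp
      rw [mem_filter]
      exact ⟨hp.1.1, hp.2⟩)
  have h5 := norm_sub_le (∑ p ∈ (X.pr k).filter (fun p => p ∉ G), χ p)
    (∑ p ∈ ((X.pr k).filter (fun p => p ∉ G)).filter (fun p => p ∈ E), χ p)
  have h6 : 0 ≤ ‖∑ p ∈ (X.pr k).filter (fun p => p ∉ G), χ p -
        ∑ p ∈ ((X.pr k).filter (fun p => p ∉ G)).filter (fun p => p ∈ E), χ p‖ := norm_nonneg _
  nlinarith

/-- the coefficients of the recurrence. -/
noncomputable def lam (η : X.P → ℂ) (k : ℕ) : ℂ :=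
  ∑ j ∈ k.divisors, ∑ p ∈ X.pr j, (j : ℂ) * (-1) ^ (k / j - 1) * η p ^ (k / j)

omit [Fact ℓ.Prime] [Fintype σ] in
theorem lam_le (q : ℕ) (hq : 3 ≤ q) (hpnt : ∀ k, k * (X.pr k).card ≤ q ^ k) (η : X.P → ℂ)
    (hη : ∀ p, ‖η p‖ ≤ 1) (k : ℕ) (hk : 1 ≤ k) :
    ‖lam X η k‖ ≤ k * ‖∑ p ∈ X.pr k, η p‖ + 2 * (q : ℝ) ^ (k / 2) := by
  unfold lam
  rw [← Nat.insert_self_properDivisors (by omega : k ≠ 0),
    sum_insert Nat.self_notMem_properDivisors]
  refine (norm_add_le _ _).trans (add_le_add ?_ ?_)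
  · rw [Nat.div_self (by omega : 0 < k)]
    simp only [Nat.sub_self, pow_zero, mul_one, pow_one]
    rw [← mul_sum, norm_mul, Complex.norm_natCast]
  · refine (norm_sum_le _ _).trans ?_
    have h1 : ∀ j ∈ k.properDivisors,
        ‖∑ p ∈ X.pr j, (j : ℂ) * (-1) ^ (k / j - 1) * η p ^ (k / j)‖ ≤ (q : ℝ) ^ j := by
      intro j _
      refine (norm_sum_le _ _).trans ?_
      have h2 : ∀ p ∈ X.pr j, ‖(j : ℂ) * (-1) ^ (k / j - 1) * η p ^ (k / j)‖ ≤ j := by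
        intro p _
        rw [norm_mul, norm_mul, norm_pow, norm_pow, norm_neg, norm_one, one_pow, mul_one,
          Complex.norm_natCast]
        exact mul_le_of_le_one_right (Nat.cast_nonneg _) (pow_le_one₀ (norm_nonneg _) (hη p))
      refine (sum_le_sum h2).trans ?_
      rw [sum_const, nsmul_eq_mul, mul_comm]
      exact_mod_cast hpnt j
    refine (sum_le_sum h1).trans ?_
    refine le_trans ?_ (sum_pow_le (q : ℝ) (by exact_mod_cast (by omega : 2 ≤ q)) (k / 2))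
    refine sum_le_sum_of_subset_of_nonneg ?_ fun _ _ _ => by positivity
    intro j hj
    rw [Nat.mem_properDivisors] at hj
    obtain ⟨⟨c, rfl⟩, hlt⟩ := hj
    rw [mem_range, Nat.lt_succ_iff]
    have hc : 2 ≤ c := by
      rcases c with _ | _ | c
      · simp at hlt
      · simp at hlt
      · omega
    rw [Nat.le_div_iff_mul_le (by norm_num)]
    exact Nat.mul_le_mul_left j hc

/-- the sum of the coefficients. -/
theorem sum_lam_le (q : ℕ) (hq : 3 ≤ q) (hpnt : ∀ k, k * (X.pr k).card ≤ q ^ k) (d T n : ℕ)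
    (E G : Finset X.P) (hGE : G ⊆ E) (w : ℝ) (hw0 : 0 ≤ w) (hw1 : w ≤ 1) (χ : X.P → ℂ)
    (hχ : ∀ p, ‖χ p‖ = 1) (hE : X.dg E ≤ n) (hn : n ≤ 2 ^ T) (hT : T ≤ d + 1)
    (hps : ∀ k : ℕ, 1 ≤ k → k * ‖∑ p ∈ (X.pr k).filter (fun p => p ∉ G), χ p‖ ≤
      d * (q * (1 - 1 / (40 * (d + 1) : ℝ))) ^ k + 2 * (q : ℝ) ^ (k / 2) + d) (M : ℕ) :
    ∑ k ∈ Icc 1 M, ‖lam X (et X E w χ) k‖ * (1 / (q * (1 - 1 / (80 * (d + 1) : ℝ)))) ^ k ≤
      80 * d * (d + 1) + 32 + d + (2 * T + 1) := by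
  set δ : ℝ := 1 / (80 * (d + 1) : ℝ) with hδ
  have hd1 : (0 : ℝ) < d + 1 := by positivity
  have hδ0 : 0 < δ := by positivity
  have hδ1 : δ ≤ 1 / 80 := by
    rw [hδ]
    apply one_div_le_one_div_of_le (by norm_num)
    have : (0 : ℝ) ≤ d := Nat.cast_nonneg d
    linarith
  have hδd : δ * (d + 1) = 1 / 80 := by
    rw [hδ]
    field_simp
  have h40 : (1 : ℝ) / (40 * (d + 1)) = 2 * δ := by
    rw [hδ]
    field_simp
    norm_num
  have hq3 : (3 : ℝ) ≤ q := by exact_mod_cast hq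
  have hq0 : (0 : ℝ) < q := by linarith
  set r : ℝ := 1 / (q * (1 - δ)) with hr
  have h1δ : (0 : ℝ) < 1 - δ := by linarith
  have hr0 : 0 < r := by positivity
  have hqr : (q : ℝ) * r = 1 / (1 - δ) := by
    rw [hr]
    field_simp
  have hqr2 : (q : ℝ) * r ≤ 1 + 2 * δ := by
    rw [hqr, div_le_iff₀ h1δ]
    nlinarith
  have hr12 : r ≤ 1 / 2 := by
    have : (q : ℝ) * r ≤ 1 + 2 * (1 / 80) := by linarith
    nlinarith
  -- pointwise bound
  have hpt : ∀ k ∈ Icc 1 M, ‖lam X (et X E w χ) k‖ * r ^ k ≤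
      d * (1 - δ) ^ k + 4 * (2 * (3 / 4 : ℝ) ^ k) + d * (1 / 2 : ℝ) ^ k +
        (k * ek X E k : ℕ) * r ^ k := by
    intro k hk
    have hk1 : 1 ≤ k := (mem_Icc.mp hk).1
    have h1 := lam_le X q hq hpnt (et X E w χ) (norm_et_le X E w hw0 hw1 χ hχ) k hk1
    have h2 := sum_et_le X E G hGE w hw0 hw1 χ hχ k
    have h3 := hps k hk1
    rw [h40] at h3
    have h4 : ‖lam X (et X E w χ) k‖ ≤ d * (q * (1 - 2 * δ)) ^ k + 4 * (q : ℝ) ^ (k / 2) + d +
        k * ek X E k := by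
      have h5 : (k : ℝ) * ‖∑ p ∈ X.pr k, et X E w χ p‖ ≤
          k * (‖∑ p ∈ (X.pr k).filter (fun p => p ∉ G), χ p‖ + ek X E k) :=
        mul_le_mul_of_nonneg_left h2 (Nat.cast_nonneg k)
      linarith
    have hrk : 0 < r ^ k := by positivity
    have h5 := mul_le_mul_of_nonneg_right h4 hrk.le
    refine h5.trans ?_
    have e1 : (q * (1 - 2 * δ)) ^ k * r ^ k ≤ (1 - δ) ^ k := by
      rw [← mul_pow]
      apply pow_le_pow_left₀
      · have : 0 ≤ 1 - 2 * δ := by linarith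
        positivity
      · have h6 : (q : ℝ) * (1 - 2 * δ) * r = (1 - 2 * δ) * (1 / (1 - δ)) := by
          rw [← hqr]
          ring
        rw [h6, mul_one_div, div_le_iff₀ h1δ]
        nlinarith
    have e2 : (q : ℝ) ^ (k / 2) * r ^ k ≤ 2 * (3 / 4 : ℝ) ^ k := by
      refine le_trans ?_ (half_pow_le k)
      have h6 : (q : ℝ) ^ (k / 2) * r ^ k = ((q : ℝ) * r) ^ (k / 2) * r ^ (k - k / 2) := by
        rw [mul_pow, mul_assoc, ← pow_add]
        congr 2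
        omega
      rw [h6]
      have h7 : r ^ (k - k / 2) ≤ r ^ (k / 2) :=
        pow_le_pow_of_le_one hr0.le (by linarith) (by omega)
      have h8 : ((q : ℝ) * r) ^ (k / 2) * r ^ (k - k / 2) ≤
          ((q : ℝ) * r) ^ (k / 2) * r ^ (k / 2) :=
        mul_le_mul_of_nonneg_left h7 (by positivity)
      refine h8.trans ?_
      rw [← mul_pow]
      apply pow_le_pow_left₀ (by positivity)
      have h9 : (q : ℝ) * r ≤ 1 + 2 * (1 / 80) := by linarith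
      have h10 : r ≤ 41 / 120 := by
        nlinarith
      have h11 : 0 ≤ (q : ℝ) * r := by positivity
      nlinarith
    have e3 : r ^ k ≤ (1 / 2 : ℝ) ^ k := pow_le_pow_left₀ hr0.le hr12 k
    have hd0 : (0 : ℝ) ≤ d := Nat.cast_nonneg d
    have e1' := mul_le_mul_of_nonneg_left e1 hd0
    have e3' := mul_le_mul_of_nonneg_left e3 hd0
    push_cast
    nlinarith
  refine (sum_le_sum hpt).trans ?_
  rw [sum_add_distrib, sum_add_distrib, sum_add_distrib, ← mul_sum, ← mul_sum, ← mul_sum,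
    ← mul_sum]
  have g1 : ∑ k ∈ Icc 1 M, (1 - δ) ^ k ≤ 80 * (d + 1) := by
    refine (geom_le (1 - δ) (by linarith) (by linarith) M).trans ?_
    rw [sub_sub_cancel, hδ, one_div_one_div]
  have g2 : ∑ k ∈ Icc 1 M, (3 / 4 : ℝ) ^ k ≤ 4 := by
    refine (geom_le (3 / 4) (by norm_num) (by norm_num) M).trans ?_
    norm_num
  have g3 : ∑ k ∈ Icc 1 M, (1 / 2 : ℝ) ^ k ≤ 1 := by
    have h1 : ∀ N : ℕ, ∑ k ∈ Icc 1 N, (1 / 2 : ℝ) ^ k = 1 - (1 / 2 : ℝ) ^ N := by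
      intro N
      induction N with
      | zero => simp
      | succ N ih =>
        rw [sum_Icc_succ_top (by omega), ih, pow_succ]
        ring
    rw [h1]
    have : (0 : ℝ) < (1 / 2 : ℝ) ^ M := by positivity
    linarith
  have g4 : ∑ k ∈ Icc 1 M, (k * ek X E k : ℕ) * r ^ k ≤ 2 * T + 1 := by
    have h1 : ∀ k ∈ Icc 1 M, ((k * ek X E k : ℕ) : ℝ) * r ^ k ≤
        (if k ≤ T then 2 else 0) + ((k * ek X E k : ℕ) : ℝ) * (1 / 2 : ℝ) ^ T := by
      intro k _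
      by_cases hkT : k ≤ T
      · rw [if_pos hkT]
        have h2 : ((k * ek X E k : ℕ) : ℝ) ≤ (q : ℝ) ^ k := by
          exact_mod_cast ek_le X E q hpnt k
        have h3 : ((k * ek X E k : ℕ) : ℝ) * r ^ k ≤ (q : ℝ) ^ k * r ^ k :=
          mul_le_mul_of_nonneg_right h2 (by positivity)
        have h4 : (q : ℝ) ^ k * r ^ k ≤ 2 := by
          rw [← mul_pow]
          have h5 : (q : ℝ) * r ≤ Real.exp (2 * δ) := by
            have := Real.add_one_le_exp (2 * δ)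
            linarith
          have h6 : ((q : ℝ) * r) ^ k ≤ Real.exp (2 * δ) ^ k :=
            pow_le_pow_left₀ (by positivity) h5 k
          refine h6.trans ?_
          rw [← Real.exp_nat_mul]
          have h7 : (k : ℝ) * (2 * δ) ≤ 1 / 40 := by
            have h8 : (k : ℝ) ≤ d + 1 := by exact_mod_cast hkT.trans hT
            nlinarith
          have h8 : Real.exp (k * (2 * δ)) ≤ Real.exp (1 / 40) := Real.exp_le_exp.mpr h7
          have h9 : Real.exp (1 / 40) ≤ 2 := by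
            have h10 : Real.exp (1 / 40) ≤ Real.exp (1 / 2) :=
              Real.exp_le_exp.mpr (by norm_num)
            have h11 : Real.exp (1 / 2) ^ 2 = Real.exp 1 := by
              rw [← Real.exp_nat_mul]
              norm_num
            have h12 := Real.exp_one_lt_d9
            nlinarith [Real.exp_pos (1 / 2 : ℝ)]
          linarith
        have h5 : 0 ≤ ((k * ek X E k : ℕ) : ℝ) * (1 / 2 : ℝ) ^ T := by positivity
        linarith
      · rw [if_neg hkT, zero_add]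
        apply mul_le_mul_of_nonneg_left _ (Nat.cast_nonneg _)
        have h2 : r ^ k ≤ (1 / 2 : ℝ) ^ k := pow_le_pow_left₀ hr0.le hr12 k
        exact h2.trans (pow_le_pow_of_le_one (by norm_num) (by norm_num) (by omega))
    refine (sum_le_sum h1).trans ?_
    rw [sum_add_distrib, ← sum_mul]
    have h2 : ∑ k ∈ Icc 1 M, (if k ≤ T then (2 : ℝ) else 0) ≤ 2 * T := by
      rw [← sum_filter, sum_const, nsmul_eq_mul, mul_comm]
      apply mul_le_mul_of_nonneg_left _ (by norm_num)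
      have h3 : ((Icc 1 M).filter (fun k => k ≤ T)).card ≤ (Icc 1 T).card := by
        apply card_le_card
        intro k hk
        rw [mem_filter, mem_Icc] at hk
        rw [mem_Icc]
        exact ⟨hk.1.1, hk.2⟩
      rw [Nat.card_Icc, Nat.add_sub_cancel] at h3
      exact_mod_cast h3
    have h3 : (∑ k ∈ Icc 1 M, ((k * ek X E k : ℕ) : ℝ)) * (1 / 2 : ℝ) ^ T ≤ 1 := by
      have h4 : (∑ k ∈ Icc 1 M, ((k * ek X E k : ℕ) : ℝ)) ≤ 2 ^ T := by
        have := ((sum_ek_le X E M).trans hE).trans hn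
        exact_mod_cast this
      calc (∑ k ∈ Icc 1 M, ((k * ek X E k : ℕ) : ℝ)) * (1 / 2 : ℝ) ^ T
          ≤ 2 ^ T * (1 / 2 : ℝ) ^ T := mul_le_mul_of_nonneg_right h4 (by positivity)
        _ = 1 := by rw [← mul_pow]; norm_num
    linarith
  have hd0 : (0 : ℝ) ≤ d := Nat.cast_nonneg d
  have g1' := mul_le_mul_of_nonneg_left g1 hd0
  have g3' := mul_le_mul_of_nonneg_left g3 hd0
  nlinarith

/-- polylogarithmic against polynomial growth. -/
theorem exists_threshold (C : ℝ) (K : ℕ) : ∃ n₀ : ℕ, ∀ n : ℕ, n₀ ≤ n → ∀ m : ℕ, n ≤ m ^ K →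
    C * (Nat.log 2 n + 1) ^ 3 ≤ m := by
  set C' : ℝ := max C 1 with hC'
  have hC1 : 1 ≤ C' := le_max_right _ _
  have h1 := tendsto_pow_const_div_const_pow_of_one_lt (3 * K) (r := (2 : ℝ)) (by norm_num)
  have h2 : ∀ᶠ L : ℕ in atTop, (L : ℝ) ^ (3 * K) / 2 ^ L < 1 / (2 * C' ^ K) := by
    apply h1.eventually_lt_const
    positivity
  rw [eventually_atTop] at h2
  obtain ⟨L₀, hL₀⟩ := h2
  refine ⟨2 ^ (L₀ + 1), fun n hn m hm => ?_⟩
  have hn0 : n ≠ 0 := by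
    have : 0 < 2 ^ (L₀ + 1) := by positivity
    omega
  have hlog : L₀ + 1 ≤ Nat.log 2 n := by
    have := Nat.log_mono_right (b := 2) hn
    rwa [Nat.log_pow (by norm_num)] at this
  by_contra hcon
  push Not at hcon
  set L := Nat.log 2 n with hL
  have h3 := hL₀ (L + 1) (by omega)
  have h4 : (2 : ℝ) ^ L ≤ n := by exact_mod_cast Nat.pow_log_le_self 2 hn0
  have h5 : (n : ℝ) ≤ (m : ℝ) ^ K := by exact_mod_cast hm
  have h6 : (m : ℝ) ^ K ≤ (C' * ((L : ℝ) + 1) ^ 3) ^ K := by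
    apply pow_le_pow_left₀ (Nat.cast_nonneg m)
    refine hcon.le.trans ?_
    apply mul_le_mul_of_nonneg_right (le_max_left _ _) (by positivity)
  have h7 : (C' * ((L : ℝ) + 1) ^ 3) ^ K = C' ^ K * ((L : ℝ) + 1) ^ (3 * K) := by
    rw [mul_pow, ← pow_mul]
  have h8 : ((L + 1 : ℕ) : ℝ) ^ (3 * K) * (2 * C' ^ K) < 2 ^ (L + 1) := by
    have h9 : (0 : ℝ) < 2 ^ (L + 1) := by positivity
    have h10 : (0 : ℝ) < 2 * C' ^ K := by positivity
    rw [div_lt_div_iff₀ h9 h10, one_mul] at h3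
    exact h3
  push_cast at h8
  rw [pow_succ] at h8
  nlinarith

end

end Pool.Agent.Helper15.TW

namespace Pool.Agent.Helper54.PT

open Finset Filter Topology Pool.Agent.Helper15.TW

/-- A18 with A12 and A13 as hypotheses -/
theorem sw_of_prime_sum_aux {ℓ : ℕ} [Fact ℓ.Prime] {σ : Type} [Fintype σ] (X : PData ℓ σ) (q : ℕ)
    (majorant : ∀ (s l : ℕ → ℝ) (L : ℝ), (∀ m, 0 ≤ s m) → s 0 ≤ 1 → (∀ m, 0 ≤ l m) →
      (∀ m : ℕ, m * s m ≤ ∑ k ∈ Icc 1 m, l k * s (m - k)) →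
      (∀ m, ∑ k ∈ Icc 1 m, l k ≤ L) → ∀ m : ℕ, s m ≤ Real.exp L)
    (sq_recurrence : ∀ (η : X.P → ℂ) (m : ℕ),
      (m : ℂ) * ∑ D ∈ X.sq m, ∏ p ∈ D, η p =
      ∑ k ∈ Icc 1 m, (∑ j ∈ k.divisors, ∑ p ∈ X.pr j,
        (j : ℂ) * (-1) ^ (k / j - 1) * η p ^ (k / j)) * ∑ D ∈ X.sq (m - k), ∏ p ∈ D, η p)
    (hq : 3 ≤ q) (hpnt : ∀ k, k * (X.pr k).card ≤ q ^ k) (r₀ : ℕ)
    (hps : ∀ (G : Finset X.P) (g : X.P → ZMod ℓ) (β : Option σ → ZMod ℓ),
      ((∃ p ∈ G, g p ≠ 0) ∨ ∃ r, β (some r) ≠ 0) → ∀ d : ℕ, X.dg G + r₀ ≤ d → ∀ k : ℕ, 1 ≤ k →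
        k * ‖∑ p ∈ (X.pr k).filter (fun p => p ∉ G),
          ee (∑ p' ∈ G, g p' * X.sym p' p + dot β (X.xx p))‖ ≤
          d * (q * (1 - 1 / (40 * (d + 1) : ℝ))) ^ k + 2 * (q : ℝ) ^ (k / 2) + d) :
    ∀ A K B : ℕ, ∃ n₀ : ℕ, ∀ n, n₀ ≤ n → ∀ (G E : Finset X.P) (g : X.P → ZMod ℓ)
    (β : Option σ → ZMod ℓ) (m : ℕ) (w : ℝ), G ⊆ E → X.dg G ≤ A * Nat.log 2 n → X.dg E ≤ n →
      n ≤ m ^ K → m ≤ n → 0 ≤ w → w ≤ 1 → ((∃ p ∈ G, g p ≠ 0) ∨ ∃ r, β (some r) ≠ 0) →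
        ‖∑ D ∈ (X.sq m).filter fun D => Disjoint D E,
          ∏ p ∈ D, ((w : ℂ) * ee (∑ p' ∈ G, g p' * X.sym p' p + dot β (X.xx p)))‖ *
            (n : ℝ) ^ B ≤ (q : ℝ) ^ m := by
  intro A K B
  -- constants
  set D₀ : ℝ := A + 1 + r₀ with hD₀
  set C₁ : ℝ := 80 * D₀ * (D₀ + 1) + D₀ + 35 with hC₁
  obtain ⟨n₀, hn₀⟩ := exists_threshold (80 * (D₀ + 1) * (C₁ + B)) K
  refine ⟨max n₀ 1, fun n hn G E g β m w hGE hG hE hnm hmn hw0 hw1 hne => ?_⟩
  have hn1 : 1 ≤ n := (le_max_right _ _).trans hn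
  have hmC := hn₀ n ((le_max_left _ _).trans hn) m hnm
  set L := Nat.log 2 n with hL
  set d : ℕ := (A + 1) * L + r₀ with hd
  set χ : X.P → ℂ := fun p => ee (∑ p' ∈ G, g p' * X.sym p' p + dot β (X.xx p)) with hχdef
  have hχ : ∀ p, ‖χ p‖ = 1 := fun p => norm_ee _
  have hps' := hps G g β hne d (by
    have : A * L ≤ (A + 1) * L := Nat.mul_le_mul_right L (by omega)
    omega)
  have hn2 : n ≤ 2 ^ (L + 1) := (Nat.lt_pow_succ_log_self (by norm_num) n).le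
  have hT : L + 1 ≤ d + 1 := by
    have : 1 * L ≤ (A + 1) * L := Nat.mul_le_mul_right L (by omega)
    omega
  have hsum := sum_lam_le X q hq hpnt d (L + 1) n E G hGE w hw0 hw1 χ hχ hE hn2 hT hps'
  set Λ : ℝ := 80 * d * (d + 1) + 32 + d + (2 * ((L + 1 : ℕ) : ℝ) + 1) with hΛ
  set δ : ℝ := 1 / (80 * (d + 1) : ℝ) with hδ
  have hd1 : (0 : ℝ) < d + 1 := by positivity
  have hδ0 : 0 < δ := by positivity
  have hδ1 : δ ≤ 1 / 80 := by
    rw [hδ]
    apply one_div_le_one_div_of_le (by norm_num)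
    have : (0 : ℝ) ≤ d := Nat.cast_nonneg d
    linarith
  have h1δ : (0 : ℝ) < 1 - δ := by linarith
  have hq3 : (3 : ℝ) ≤ q := by exact_mod_cast hq
  have hq0 : (0 : ℝ) < q := by linarith
  set r : ℝ := 1 / (q * (1 - δ)) with hr
  have hr0 : 0 < r := by positivity
  set S : ℕ → ℂ := fun m => ∑ D ∈ X.sq m, ∏ p ∈ D, et X E w χ p with hS
  have hmaj := majorant (fun m => ‖S m‖ * r ^ m) (fun k => ‖lam X (et X E w χ) k‖ * r ^ k) Λ
    (fun m => by positivity) ?_ (fun k => by positivity) ?_ hsum m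
  · -- conclusion
    rw [filter_sum_eq X E w χ m]
    change ‖S m‖ * (n : ℝ) ^ B ≤ (q : ℝ) ^ m
    have hmaj' : ‖S m‖ * r ^ m ≤ Real.exp Λ := hmaj
    have h1 : ‖S m‖ ≤ Real.exp Λ * (q * (1 - δ)) ^ m := by
      have h2 : ‖S m‖ = (‖S m‖ * r ^ m) * (q * (1 - δ)) ^ m := by
        rw [mul_assoc, ← mul_pow, hr, one_div_mul_cancel (by positivity), one_pow, mul_one]
      rw [h2]
      exact mul_le_mul_of_nonneg_right hmaj' (by positivity)
    have h2 : (1 - δ) ^ m ≤ Real.exp (-(δ * m)) := by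
      have h3 : 1 - δ ≤ Real.exp (-δ) := by
        have := Real.add_one_le_exp (-δ)
        linarith
      refine (pow_le_pow_left₀ h1δ.le h3 m).trans ?_
      rw [← Real.exp_nat_mul]
      apply le_of_eq
      congr 1
      ring
    have h3 : (n : ℝ) ^ B ≤ Real.exp (B * (L + 1)) := by
      have h4 : (n : ℝ) ≤ Real.exp (L + 1) := by
        have h5 : (n : ℝ) ≤ 2 ^ (L + 1) := by exact_mod_cast hn2
        have h6 : (2 : ℝ) ≤ Real.exp 1 := by
          have := Real.add_one_le_exp (1 : ℝ)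
          linarith
        have h7 : (2 : ℝ) ^ (L + 1) ≤ Real.exp 1 ^ (L + 1) :=
          pow_le_pow_left₀ (by norm_num) h6 _
        rw [← Real.exp_nat_mul] at h7
        push_cast at h7
        rw [mul_one] at h7
        linarith
      refine (pow_le_pow_left₀ (Nat.cast_nonneg n) h4 B).trans ?_
      rw [← Real.exp_nat_mul]
    have hL0 : (0 : ℝ) ≤ L := Nat.cast_nonneg L
    have hA0 : (0 : ℝ) ≤ A := Nat.cast_nonneg A
    have hr00 : (0 : ℝ) ≤ r₀ := Nat.cast_nonneg r₀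
    have hB0 : (0 : ℝ) ≤ B := Nat.cast_nonneg B
    have hdle : (d : ℝ) ≤ D₀ * (L + 1) := by
      rw [hd, hD₀]
      push_cast
      nlinarith
    have hD₀1 : 1 ≤ D₀ := by rw [hD₀]; linarith
    have hd0 : (0 : ℝ) ≤ d := Nat.cast_nonneg d
    have hx1 : (1 : ℝ) ≤ L + 1 := by linarith
    have hΛle : Λ ≤ C₁ * ((L : ℝ) + 1) ^ 2 := by
      have h5 : 80 * (d : ℝ) * (d + 1) ≤ 80 * (D₀ * (L + 1)) * ((D₀ + 1) * (L + 1)) := by
        have h6 : (d : ℝ) + 1 ≤ (D₀ + 1) * (L + 1) := by nlinarith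
        have h7 : 80 * (d : ℝ) ≤ 80 * (D₀ * (L + 1)) := by linarith
        exact mul_le_mul h7 h6 (by positivity) (by positivity)
      have h8 : (d : ℝ) ≤ D₀ * (L + 1) ^ 2 := by
        have : D₀ * ((L : ℝ) + 1) ≤ D₀ * (L + 1) ^ 2 := by
          apply mul_le_mul_of_nonneg_left _ (by linarith)
          nlinarith
        linarith
      have h9 : (32 : ℝ) + (2 * ((L : ℝ) + 1) + 1) ≤ 35 * (L + 1) ^ 2 := by nlinarith
      rw [hΛ, hC₁]
      push_cast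
      nlinarith
    have hδm : Λ + B * (L + 1) ≤ δ * m := by
      have h5 : Λ + B * (L + 1) ≤ (C₁ + B) * ((L : ℝ) + 1) ^ 2 := by
        have : (B : ℝ) * (L + 1) ≤ B * (L + 1) ^ 2 := by
          apply mul_le_mul_of_nonneg_left _ hB0
          nlinarith
        linarith
      have h6 : (C₁ + B) * ((L : ℝ) + 1) ^ 2 * (80 * (d + 1)) ≤ m := by
        have h7 : (80 : ℝ) * (d + 1) ≤ 80 * ((D₀ + 1) * (L + 1)) := by nlinarith
        have hC0 : 0 ≤ C₁ + B := by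
          have : 0 ≤ C₁ := by rw [hC₁]; positivity
          linarith
        calc (C₁ + B) * ((L : ℝ) + 1) ^ 2 * (80 * (d + 1))
            ≤ (C₁ + B) * ((L : ℝ) + 1) ^ 2 * (80 * ((D₀ + 1) * (L + 1))) :=
              mul_le_mul_of_nonneg_left h7 (by positivity)
          _ = 80 * (D₀ + 1) * (C₁ + B) * ((L : ℝ) + 1) ^ 3 := by ring
          _ ≤ m := hmC
      refine h5.trans ?_
      rw [hδ, one_div, ← div_eq_inv_mul, le_div_iff₀ (by positivity)]
      exact h6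
    calc ‖S m‖ * (n : ℝ) ^ B
        ≤ (Real.exp Λ * (q * (1 - δ)) ^ m) * Real.exp (B * (L + 1)) :=
          mul_le_mul h1 h3 (by positivity) (by positivity)
      _ = (q : ℝ) ^ m * ((Real.exp Λ * Real.exp (B * (L + 1))) * (1 - δ) ^ m) := by
          rw [mul_pow]; ring
      _ ≤ (q : ℝ) ^ m * ((Real.exp Λ * Real.exp (B * (L + 1))) * Real.exp (-(δ * m))) := by
          gcongr
      _ ≤ (q : ℝ) ^ m * 1 := by
          apply mul_le_mul_of_nonneg_left _ (by positivity)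
          rw [← Real.exp_add, ← Real.exp_add, Real.exp_le_one_iff]
          linarith
      _ = (q : ℝ) ^ m := mul_one _
  · -- value at zero
    have h1 : X.sq 0 = {∅} := by
      ext D
      rw [X.mem_sq, mem_singleton]
      constructor
      · intro h
        rw [eq_empty_iff_forall_notMem]
        intro p hp
        have h2 : X.deg p ≤ X.dg D := single_le_sum (f := X.deg) (fun _ _ => Nat.zero_le _) hp
        have h3 := X.deg_pos p
        omega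
      · rintro rfl
        simp [PData.dg]
    simp [hS, h1]
  · -- recurrence
    intro M
    have h1 := sq_recurrence (et X E w χ) M
    have h2 : (M : ℝ) * ‖S M‖ = ‖(M : ℂ) * S M‖ := by
      rw [norm_mul, Complex.norm_natCast]
    change (M : ℝ) * (‖S M‖ * r ^ M) ≤
      ∑ k ∈ Icc 1 M, ‖lam X (et X E w χ) k‖ * r ^ k * (‖S (M - k)‖ * r ^ (M - k))
    rw [← mul_assoc, h2]
    have h3 : (M : ℂ) * S M = ∑ k ∈ Icc 1 M, lam X (et X E w χ) k * S (M - k) := h1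
    rw [h3]
    refine (mul_le_mul_of_nonneg_right (norm_sum_le _ _) (by positivity)).trans ?_
    rw [sum_mul]
    refine sum_le_sum fun k hk => ?_
    have hk2 := (mem_Icc.mp hk).2
    rw [norm_mul]
    have h4 : r ^ M = r ^ k * r ^ (M - k) := by
      rw [← pow_add]
      congr 1
      omega
    rw [h4]
    apply le_of_eq
    ring

/-- A18: from prime sums to the Siegel-Walfisz type estimate (abstract) -/
theorem sw_of_prime_sum {ℓ : ℕ} [Fact ℓ.Prime] {σ : Type} [Fintype σ] (X : PData ℓ σ) (q : ℕ)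
    (hq : 3 ≤ q) (hpnt : ∀ k, k * (X.pr k).card ≤ q ^ k) (r₀ : ℕ)
    (hps : ∀ (G : Finset X.P) (g : X.P → ZMod ℓ) (β : Option σ → ZMod ℓ),
      ((∃ p ∈ G, g p ≠ 0) ∨ ∃ r, β (some r) ≠ 0) → ∀ d : ℕ, X.dg G + r₀ ≤ d → ∀ k : ℕ, 1 ≤ k →
        k * ‖∑ p ∈ (X.pr k).filter (fun p => p ∉ G),
          ee (∑ p' ∈ G, g p' * X.sym p' p + dot β (X.xx p))‖ ≤
          d * (q * (1 - 1 / (40 * (d + 1) : ℝ))) ^ k + 2 * (q : ℝ) ^ (k / 2) + d) :
    ∀ A K B : ℕ, ∃ n₀ : ℕ, ∀ n, n₀ ≤ n → ∀ (G E : Finset X.P) (g : X.P → ZMod ℓ)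
    (β : Option σ → ZMod ℓ) (m : ℕ) (w : ℝ), G ⊆ E → X.dg G ≤ A * Nat.log 2 n → X.dg E ≤ n →
      n ≤ m ^ K → m ≤ n → 0 ≤ w → w ≤ 1 → ((∃ p ∈ G, g p ≠ 0) ∨ ∃ r, β (some r) ≠ 0) →
        ‖∑ D ∈ (X.sq m).filter fun D => Disjoint D E,
          ∏ p ∈ D, ((w : ℂ) * ee (∑ p' ∈ G, g p' * X.sym p' p + dot β (X.xx p)))‖ *
            (n : ℝ) ^ B ≤ (q : ℝ) ^ m :=
  sw_of_prime_sum_aux X q (fun s l L => majorant s l L) (fun η m => sq_recurrence X η m)
    hq hpnt r₀ hps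

end Pool.Agent.Helper54.PT
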