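import Pool.Agent.Helper9.TW.St
import Pool.Agent.Helper15.AB.M_PQ

/-!
# Project TW: module BIL (Cauchy-Schwarz for the bilinear form)
-/

set_option autoImplicit false

noncomputable section

namespace Pool.Agent.Helper15.TW

open Finset
open Pool.Agent.Helper9.TW
open Pool.Agent.Helper15.AB (ee StDB)
open Pool.Agent.Helper15.AB.hPQ (ee_add ee_norm)

/-- expansion of the square -/
theorem bil_sq {A B : Type} (s : Finset A) (t : Finset B) (f : A → B → ℂ) :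
    ∑ a ∈ s, ‖∑ b ∈ t, f a b‖ ^ 2 ≤
      ∑ v ∈ t ×ˢ t, ‖∑ a ∈ s, f a v.1 * (starRingEnd ℂ) (f a v.2)‖ := by
  have h1 : ((∑ a ∈ s, ‖∑ b ∈ t, f a b‖ ^ 2 : ℝ) : ℂ) =
      ∑ v ∈ t ×ˢ t, ∑ a ∈ s, f a v.1 * (starRingEnd ℂ) (f a v.2) := by
    rw [Finset.sum_comm]
    push_cast
    refine Finset.sum_congr rfl fun a _ => ?_
    rw [← Complex.mul_conj', map_sum, Finset.sum_mul_sum, Finset.sum_product]
  have h2 : (∑ a ∈ s, ‖∑ b ∈ t, f a b‖ ^ 2 : ℝ) =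
      ‖((∑ a ∈ s, ‖∑ b ∈ t, f a b‖ ^ 2 : ℝ) : ℂ)‖ := by
    rw [Complex.norm_real, Real.norm_of_nonneg]
    exact Finset.sum_nonneg fun a _ => sq_nonneg _
  rw [h2, h1]
  exact norm_sum_le _ _

/-- the inverse modulo `r` -/
theorem bil_iv (r n : ℕ) (hr : 1 ≤ r) (hn : Nat.Coprime n r) : (r : ℤ) ∣ (n : ℤ) * (iv r n : ℤ) - 1 := by
  haveI : NeZero r := ⟨by omega⟩
  have h1 : (((n : ℤ) * (iv r n : ℤ) - 1 : ℤ) : ZMod r) = 0 := by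
    unfold iv
    push_cast
    rw [ZMod.natCast_zmod_val, ZMod.coe_mul_inv_eq_one n hn, sub_self]
  exact (ZMod.intCast_zmod_eq_zero_iff_dvd _ _).1 h1

theorem bil_gcd (a d : ℕ) (ha : 1 ≤ a) (hd : 1 ≤ d) (κ : ℤ) (hκ : IsCoprime κ (a : ℤ))
    (h₁ h₂ n₁ n₂ : ℕ) (hn₁ : Nat.Coprime n₁ (a * d)) (hn₂ : Nat.Coprime n₂ (a * d)) :
    Int.gcd (κ * ((h₁ : ℤ) * (iv (a * d) n₁ : ℤ) - (h₂ : ℤ) * (iv (a * d) n₂ : ℤ))) ((a * d : ℕ) : ℤ) ≤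
      d * Int.gcd ((h₁ : ℤ) * n₂ - (h₂ : ℤ) * n₁) ((a * d : ℕ) : ℤ) := by
  have hr : 1 ≤ a * d := Nat.mul_pos ha hd
  obtain ⟨k, hk⟩ : ∃ k : ℤ, k = κ * ((h₁ : ℤ) * (iv (a * d) n₁ : ℤ) - (h₂ : ℤ) * (iv (a * d) n₂ : ℤ)) :=
    ⟨_, rfl⟩
  obtain ⟨Δ, hΔ⟩ : ∃ Δ : ℤ, Δ = (h₁ : ℤ) * n₂ - (h₂ : ℤ) * n₁ := ⟨_, rfl⟩
  rw [← hk, ← hΔ]
  have e1 : ((a * d : ℕ) : ℤ) ∣ (n₁ : ℤ) * n₂ * k - κ * Δ := by
    have e2 : (n₁ : ℤ) * n₂ * k - κ * Δ =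
        κ * ((h₁ : ℤ) * n₂ * ((n₁ : ℤ) * (iv (a * d) n₁ : ℤ) - 1) -
          (h₂ : ℤ) * n₁ * ((n₂ : ℤ) * (iv (a * d) n₂ : ℤ) - 1)) := by
      rw [hk, hΔ]; ring
    rw [e2]
    exact Dvd.dvd.mul_left (dvd_sub (Dvd.dvd.mul_left (bil_iv _ _ hr hn₁) _)
      (Dvd.dvd.mul_left (bil_iv _ _ hr hn₂) _)) _
  have hg1 : (Int.gcd k ((a * d : ℕ) : ℤ) : ℤ) ∣ κ * Δ := by
    have e3 : (Int.gcd k ((a * d : ℕ) : ℤ) : ℤ) ∣ (n₁ : ℤ) * n₂ * k :=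
      Dvd.dvd.mul_left (Int.gcd_dvd_left _ _) _
    have e4 : (Int.gcd k ((a * d : ℕ) : ℤ) : ℤ) ∣ (n₁ : ℤ) * n₂ * k - κ * Δ :=
      (Int.gcd_dvd_right _ _).trans e1
    have e5 := dvd_sub e3 e4
    have e6 : (n₁ : ℤ) * n₂ * k - ((n₁ : ℤ) * n₂ * k - κ * Δ) = κ * Δ := by ring
    rwa [e6] at e5
  have hg2 : Int.gcd k ((a * d : ℕ) : ℤ) ∣ Int.gcd (κ * Δ) ((a * d : ℕ) : ℤ) :=
    Int.natCast_dvd_natCast.1 (Int.dvd_coe_gcd hg1 (Int.gcd_dvd_right _ _))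
  have hg3 : Int.gcd (κ * Δ) ((a * d : ℕ) : ℤ) ∣
      Int.gcd κ ((a * d : ℕ) : ℤ) * Int.gcd Δ ((a * d : ℕ) : ℤ) := by
    unfold Int.gcd
    rw [Int.natAbs_mul]
    exact Nat.gcd_mul_left_dvd_mul_gcd _ _ _
  have hg4 : Int.gcd κ ((a * d : ℕ) : ℤ) ∣ d := by
    have c1 : Nat.Coprime (Int.gcd κ ((a * d : ℕ) : ℤ)) a := by
      have c2 : Nat.Coprime κ.natAbs a := by
        have := Int.isCoprime_iff_gcd_eq_one.1 hκ
        simpa [Int.gcd] using this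
      exact Nat.Coprime.coprime_dvd_left (Nat.gcd_dvd_left _ _) c2
    have c3 : Int.gcd κ ((a * d : ℕ) : ℤ) ∣ a * d := by
      have := Nat.gcd_dvd_right κ.natAbs (a * d)
      unfold Int.gcd
      rw [Int.natAbs_natCast]
      exact this
    exact Nat.Coprime.dvd_of_dvd_mul_left c1 c3
  have hpos1 : 0 < Int.gcd Δ ((a * d : ℕ) : ℤ) := Int.gcd_pos_of_ne_zero_right _ (by positivity)
  have hpos2 : 0 < Int.gcd κ ((a * d : ℕ) : ℤ) := Int.gcd_pos_of_ne_zero_right _ (by positivity)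
  calc Int.gcd k ((a * d : ℕ) : ℤ)
      ≤ Int.gcd κ ((a * d : ℕ) : ℤ) * Int.gcd Δ ((a * d : ℕ) : ℤ) :=
        Nat.le_of_dvd (Nat.mul_pos hpos2 hpos1) (hg2.trans hg3)
    _ ≤ d * Int.gcd Δ ((a * d : ℕ) : ℤ) := Nat.mul_le_mul_right _ (Nat.le_of_dvd hd hg4)

theorem bil_conj (s t : ℝ) : ee s * (starRingEnd ℂ) (ee t) = ee (s - t) := by
  have h1 : (starRingEnd ℂ) (ee t) = ee (-t) := by
    unfold ee
    rw [← Complex.exp_conj]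
    congr 1
    simp only [map_mul, Complex.conj_I, Complex.conj_ofReal]
    have : (starRingEnd ℂ) 2 = 2 := by
      have := Complex.conj_ofReal 2
      simpa using this
    rw [this]
    push_cast
    ring
  rw [h1, ← ee_add]
  rfl

/-- the sum over all quadruples -/
theorem bil_count (hQ : StQD) (r H N : ℕ) (hr : 1 ≤ r) (T K M' : ℝ) (hK : 0 ≤ K) (hM' : 0 ≤ M')
    (hT : ∀ j : ℕ, 1 ≤ j → j ≤ H * N → (j.divisors.card : ℝ) ≤ T)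
    (Q : Finset (ℕ × ℕ)) (hQs : Q ⊆ Icc 1 H ×ˢ Icc 1 N) (D : (ℕ × ℕ) × (ℕ × ℕ) → ℝ)
    (hD1 : ∀ v ∈ Q ×ˢ Q, D v ≤ M')
    (hD2 : ∀ v ∈ Q ×ˢ Q, D v ≤
      K * (Int.gcd ((v.1.1 : ℤ) * v.2.2 - v.2.1 * v.1.2) (r : ℤ) : ℝ) ^ (1 / 4 : ℝ)) :
    ∑ v ∈ Q ×ˢ Q, D v ≤ (r.divisors.card : ℝ) *
      (T ^ 2 * (K * ((H : ℝ) * N) ^ 2 + M' * (H * N))) := by
  obtain ⟨g, hg⟩ : ∃ g : (ℕ × ℕ) × (ℕ × ℕ) → ℕ, g = fun v =>
      Int.gcd ((v.1.1 : ℤ) * v.2.2 - v.2.1 * v.1.2) (r : ℤ) := ⟨_, rfl⟩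
  have hmaps : ∀ v ∈ Q ×ˢ Q, g v ∈ r.divisors := by
    intro v _
    rw [Nat.mem_divisors]
    refine ⟨?_, by omega⟩
    rw [hg]
    have := Nat.gcd_dvd_right ((v.1.1 : ℤ) * v.2.2 - v.2.1 * v.1.2).natAbs r
    simpa [Int.gcd] using this
  rw [← Finset.sum_fiberwise_of_maps_to hmaps]
  have hkey : ∀ j ∈ r.divisors, ∑ v ∈ (Q ×ˢ Q).filter (fun v => g v = j), D v ≤
      T ^ 2 * (K * ((H : ℝ) * N) ^ 2 + M' * (H * N)) := by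
    intro j hj
    have hj1 : 1 ≤ j := Nat.pos_of_mem_divisors hj
    have hj1' : (1 : ℝ) ≤ j := by exact_mod_cast hj1
    have hcard : (((Q ×ˢ Q).filter (fun v => g v = j)).card : ℝ) ≤
        T ^ 2 * (H * N) * ((H : ℝ) * N / j + 1) := by
      refine le_trans ?_ (hQ H N j T hj1 hT)
      have : ((Q ×ˢ Q).filter (fun v => g v = j)).card ≤
          (((Icc 1 H ×ˢ Icc 1 N) ×ˢ (Icc 1 H ×ˢ Icc 1 N)).filter (fun v : (ℕ × ℕ) × (ℕ × ℕ) =>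
            (j : ℤ) ∣ (v.1.1 : ℤ) * v.2.2 - v.2.1 * v.1.2)).card := by
        apply Finset.card_le_card
        intro v hv
        rw [Finset.mem_filter, Finset.mem_product] at hv
        rw [Finset.mem_filter, Finset.mem_product]
        refine ⟨⟨hQs hv.1.1, hQs hv.1.2⟩, ?_⟩
        rw [← hv.2, hg]
        exact Int.gcd_dvd_left _ _
      exact_mod_cast this
    have hmin : ∀ v ∈ (Q ×ˢ Q).filter (fun v => g v = j), D v ≤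
        min M' (K * (j : ℝ) ^ (1 / 4 : ℝ)) := by
      intro v hv
      rw [Finset.mem_filter] at hv
      refine le_min (hD1 v hv.1) ?_
      have := hD2 v hv.1
      rw [← hv.2, hg]
      exact this
    have h1 : ∑ v ∈ (Q ×ˢ Q).filter (fun v => g v = j), D v ≤
        (((Q ×ˢ Q).filter (fun v => g v = j)).card : ℝ) * min M' (K * (j : ℝ) ^ (1 / 4 : ℝ)) := by
      rw [← nsmul_eq_mul]
      exact Finset.sum_le_card_nsmul _ _ _ hmin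
    have hmn : 0 ≤ min M' (K * (j : ℝ) ^ (1 / 4 : ℝ)) :=
      le_min hM' (mul_nonneg hK (Real.rpow_nonneg (by positivity) _))
    refine h1.trans ((mul_le_mul_of_nonneg_right hcard hmn).trans ?_)
    have hHN : (0 : ℝ) ≤ (H : ℝ) * N := by positivity
    have e1 : (H : ℝ) * N / j * min M' (K * (j : ℝ) ^ (1 / 4 : ℝ)) ≤ (H : ℝ) * N * K := by
      have e2 : (j : ℝ) ^ (1 / 4 : ℝ) ≤ j := by
        calc (j : ℝ) ^ (1 / 4 : ℝ) ≤ (j : ℝ) ^ (1 : ℝ) :=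
              Real.rpow_le_rpow_of_exponent_le hj1' (by norm_num)
          _ = j := Real.rpow_one _
      calc (H : ℝ) * N / j * min M' (K * (j : ℝ) ^ (1 / 4 : ℝ))
          ≤ (H : ℝ) * N / j * (K * j) := by
            apply mul_le_mul_of_nonneg_left _ (by positivity)
            exact (min_le_right _ _).trans (mul_le_mul_of_nonneg_left e2 hK)
        _ = (H : ℝ) * N * K := by field_simp
    have e3 : 1 * min M' (K * (j : ℝ) ^ (1 / 4 : ℝ)) ≤ M' := by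
      rw [one_mul]; exact min_le_left _ _
    calc T ^ 2 * (H * N) * ((H : ℝ) * N / j + 1) * min M' (K * (j : ℝ) ^ (1 / 4 : ℝ))
        = T ^ 2 * ((H : ℝ) * N) * ((H : ℝ) * N / j * min M' (K * (j : ℝ) ^ (1 / 4 : ℝ)) +
            1 * min M' (K * (j : ℝ) ^ (1 / 4 : ℝ))) := by ring
      _ ≤ T ^ 2 * ((H : ℝ) * N) * ((H : ℝ) * N * K + M') := by
          apply mul_le_mul_of_nonneg_left (add_le_add e1 e3) (by positivity)
      _ = T ^ 2 * (K * ((H : ℝ) * N) ^ 2 + M' * (H * N)) := by ring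
  rw [← nsmul_eq_mul]
  exact Finset.sum_le_card_nsmul _ _ _ hkey

theorem hBIL (hI : StINC) (hQ : StQD) (hDB : StDB) : StBIL := by
  intro ε hε
  obtain ⟨C₁, hC₁, hI'⟩ := hI (ε / 2) (by positivity)
  obtain ⟨C₂, hC₂, hD2⟩ := hDB (ε / 4) (by positivity)
  obtain ⟨C₃, hC₃, hD3⟩ := hDB (ε / 16) (by positivity)
  refine ⟨C₂ * C₃ ^ 2 * (C₁ + 1), by positivity, ?_⟩
  intro a d κ M₁ M₂ H N al be ha hd hκ hM hM2 hHN hal hbe
  obtain ⟨r, hrdef⟩ : ∃ r : ℕ, r = a * d := ⟨_, rfl⟩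
  have hr : 1 ≤ r := by rw [hrdef]; exact Nat.mul_pos ha hd
  have hr0 : (0 : ℝ) < r := by exact_mod_cast hr
  have hr1 : (1 : ℝ) ≤ r := by exact_mod_cast hr
  have hgcd := fun h₁ h₂ n₁ n₂ hn₁ hn₂ => bil_gcd a d ha hd κ hκ h₁ h₂ n₁ n₂ hn₁ hn₂
  rw [← hrdef] at hM2 hHN hgcd ⊢
  obtain ⟨M', hM'def⟩ : ∃ M' : ℝ, M' = (M₂ : ℝ) - M₁ := ⟨_, rfl⟩
  have hM'0 : 0 ≤ M' := by
    rw [hM'def]
    have : (M₁ : ℝ) ≤ M₂ := by exact_mod_cast hM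
    linarith
  rw [← hM'def]
  obtain ⟨S, hS⟩ : ∃ S : Finset ℕ, S = (Ioc M₁ M₂).filter (fun m => Nat.Coprime m r) := ⟨_, rfl⟩
  obtain ⟨Nn, hNn⟩ : ∃ Nn : Finset ℕ, Nn = (Icc 1 N).filter (fun n => Nat.Coprime n r) := ⟨_, rfl⟩
  rw [← hS, ← hNn]
  have hScard : (S.card : ℝ) ≤ M' := by
    have h1 : S.card ≤ M₂ - M₁ := by
      rw [hS]
      exact (Finset.card_filter_le _ _).trans (by simp)
    have h2 : (S.card : ℝ) ≤ ((M₂ - M₁ : ℕ) : ℝ) := by exact_mod_cast h1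
    rw [Nat.cast_sub hM] at h2
    rw [hM'def]
    exact h2
  obtain ⟨f, hf⟩ : ∃ f : ℕ → ℕ × ℕ → ℂ, f = fun m q => be q.1 q.2 *
      ee (((κ * q.1 * (iv r m : ℤ) * (iv r q.2 : ℤ) : ℤ) : ℝ) / (r : ℝ)) := ⟨_, rfl⟩
  have hsum : ∑ m ∈ S, ∑ h ∈ Icc 1 H, ∑ n ∈ Nn, al m * be h n *
        ee (((κ * h * (iv r m : ℤ) * (iv r n : ℤ) : ℤ) : ℝ) / (r : ℝ)) =
      ∑ m ∈ S, al m * ∑ q ∈ Icc 1 H ×ˢ Nn, f m q := by
    refine Finset.sum_congr rfl fun m _ => ?_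
    rw [Finset.sum_product, Finset.mul_sum]
    refine Finset.sum_congr rfl fun h _ => ?_
    rw [Finset.mul_sum]
    refine Finset.sum_congr rfl fun n _ => ?_
    rw [hf]
    ring
  rw [hsum]
  -- Cauchy-Schwarz
  have hCS : ‖∑ m ∈ S, al m * ∑ q ∈ Icc 1 H ×ˢ Nn, f m q‖ ^ 2 ≤
      M' * ∑ m ∈ S, ‖∑ q ∈ Icc 1 H ×ˢ Nn, f m q‖ ^ 2 := by
    have h1 : ‖∑ m ∈ S, al m * ∑ q ∈ Icc 1 H ×ˢ Nn, f m q‖ ≤
        ∑ m ∈ S, ‖∑ q ∈ Icc 1 H ×ˢ Nn, f m q‖ := by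
      refine (norm_sum_le _ _).trans (Finset.sum_le_sum fun m _ => ?_)
      rw [norm_mul]
      exact mul_le_of_le_one_left (norm_nonneg _) (hal m)
    have h2 : (∑ m ∈ S, ‖∑ q ∈ Icc 1 H ×ˢ Nn, f m q‖) ^ 2 ≤
        (S.card : ℝ) * ∑ m ∈ S, ‖∑ q ∈ Icc 1 H ×ˢ Nn, f m q‖ ^ 2 :=
      sq_sum_le_card_mul_sum_sq
    refine (pow_le_pow_left₀ (norm_nonneg _) h1 2).trans (h2.trans ?_)
    exact mul_le_mul_of_nonneg_right hScard (Finset.sum_nonneg fun m _ => sq_nonneg _)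
  refine hCS.trans ?_
  -- the sum over the quadruples
  obtain ⟨K, hK⟩ : ∃ K : ℝ, K = C₁ * (r : ℝ) ^ (3 / 4 + ε / 2) * (d : ℝ) ^ (1 / 4 : ℝ) := ⟨_, rfl⟩
  have hK0 : 0 ≤ K := by rw [hK]; positivity
  have hmem : ∀ q ∈ Icc 1 H ×ˢ Nn, Nat.Coprime q.2 r := by
    intro q hq
    rw [Finset.mem_product, hNn, Finset.mem_filter] at hq
    exact hq.2.2
  have hinner : ∀ v : (ℕ × ℕ) × (ℕ × ℕ),
      ‖∑ m ∈ S, f m v.1 * (starRingEnd ℂ) (f m v.2)‖ ≤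
      ‖∑ m ∈ S, ee ((((κ * ((v.1.1 : ℤ) * (iv r v.1.2 : ℤ) - (v.2.1 : ℤ) * (iv r v.2.2 : ℤ))) *
        (iv r m : ℤ) : ℤ) : ℝ) / r)‖ := by
    intro v
    have h1 : ∑ m ∈ S, f m v.1 * (starRingEnd ℂ) (f m v.2) =
        (be v.1.1 v.1.2 * (starRingEnd ℂ) (be v.2.1 v.2.2)) *
        ∑ m ∈ S, ee ((((κ * ((v.1.1 : ℤ) * (iv r v.1.2 : ℤ) - (v.2.1 : ℤ) * (iv r v.2.2 : ℤ))) *
          (iv r m : ℤ) : ℤ) : ℝ) / r) := by
      rw [Finset.mul_sum]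
      refine Finset.sum_congr rfl fun m _ => ?_
      rw [hf]
      simp only [map_mul]
      rw [show ∀ x y z w : ℂ, x * y * (z * w) = (x * z) * (y * w) from fun x y z w => by ring,
        bil_conj]
      congr 2
      push_cast
      ring
    rw [h1, norm_mul, norm_mul, RCLike.norm_conj]
    refine mul_le_of_le_one_left (norm_nonneg _) ?_
    exact mul_le_one₀ (hbe _ _) (norm_nonneg _) (hbe _ _)
  have hA := bil_count hQ r H N hr (C₃ * (r : ℝ) ^ (ε / 8)) K M' hK0 hM'0 (by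
      intro j hj hj2
      refine (hD3 j hj).trans ?_
      apply mul_le_mul_of_nonneg_left _ (by linarith)
      have h1 : (j : ℝ) ≤ (r : ℝ) ^ (2 : ℝ) := by
        have : j ≤ r ^ 2 := hj2.trans hHN
        rw [Real.rpow_two]
        exact_mod_cast this
      calc (j : ℝ) ^ (ε / 16) ≤ ((r : ℝ) ^ (2 : ℝ)) ^ (ε / 16) :=
            Real.rpow_le_rpow (by positivity) h1 (by positivity)
        _ = (r : ℝ) ^ (ε / 8) := by
            rw [← Real.rpow_mul hr0.le]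
            congr 1
            ring)
    (Icc 1 H ×ˢ Nn) (by
      apply Finset.product_subset_product_right
      rw [hNn]
      exact Finset.filter_subset _ _)
    (fun v => ‖∑ m ∈ S, f m v.1 * (starRingEnd ℂ) (f m v.2)‖)
    (by
      intro v _
      refine (hinner v).trans ((norm_sum_le _ _).trans ?_)
      simp only [ee_norm]
      rw [Finset.sum_const, nsmul_eq_mul, mul_one]
      exact hScard)
    (by
      intro v hv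
      rw [Finset.mem_product] at hv
      refine (hinner v).trans ?_
      rw [hS]
      refine (hI' r _ M₁ M₂ hr hM2).trans ?_
      have hg := hgcd v.1.1 v.2.1 v.1.2 v.2.2 (hmem _ hv.1) (hmem _ hv.2)
      have hg' : (Int.gcd (κ * ((v.1.1 : ℤ) * (iv r v.1.2 : ℤ) - (v.2.1 : ℤ) * (iv r v.2.2 : ℤ)))
          (r : ℤ) : ℝ) ≤ (d : ℝ) *
          (Int.gcd ((v.1.1 : ℤ) * v.2.2 - (v.2.1 : ℤ) * v.1.2) (r : ℤ) : ℝ) := by exact_mod_cast hg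
      have hg2 := Real.rpow_le_rpow (z := (1 / 4 : ℝ)) (by positivity) hg' (by norm_num)
      rw [Real.mul_rpow (by positivity) (by positivity)] at hg2
      rw [hK, mul_assoc (C₁ * (r : ℝ) ^ (3 / 4 + ε / 2))]
      exact mul_le_mul_of_nonneg_left hg2 (by positivity))
  have hB := mul_le_mul_of_nonneg_left ((bil_sq S (Icc 1 H ×ˢ Nn) f).trans hA) hM'0
  refine hB.trans ?_
  -- constants
  obtain ⟨A, hAd⟩ : ∃ A : ℝ, A = (r : ℝ) ^ (ε / 2) := ⟨_, rfl⟩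
  have hA1 : 1 ≤ A := by rw [hAd]; exact Real.one_le_rpow hr1 (by positivity)
  have hAA : (r : ℝ) ^ ε = A * A := by
    rw [hAd, ← Real.rpow_add hr0]
    congr 1
    ring
  have hKA : K = C₁ * ((r : ℝ) ^ (3 / 4 : ℝ) * A) * (d : ℝ) ^ (1 / 4 : ℝ) := by
    rw [hK, Real.rpow_add hr0, hAd]
  have hτ : (r.divisors.card : ℝ) * (C₃ * (r : ℝ) ^ (ε / 8)) ^ 2 ≤ C₂ * C₃ ^ 2 * A := by
    have h1 := hD2 r hr
    calc (r.divisors.card : ℝ) * (C₃ * (r : ℝ) ^ (ε / 8)) ^ 2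
        ≤ (C₂ * (r : ℝ) ^ (ε / 4)) * (C₃ * (r : ℝ) ^ (ε / 8)) ^ 2 :=
          mul_le_mul_of_nonneg_right h1 (sq_nonneg _)
      _ = C₂ * C₃ ^ 2 * ((r : ℝ) ^ (ε / 4) * ((r : ℝ) ^ (ε / 8) * (r : ℝ) ^ (ε / 8))) := by ring
      _ = C₂ * C₃ ^ 2 * A := by
          rw [← Real.rpow_add hr0, ← Real.rpow_add hr0, hAd]
          congr 2
          ring
  obtain ⟨X, hX⟩ : ∃ X : ℝ, X = (H : ℝ) * N := ⟨_, rfl⟩
  have hX0 : 0 ≤ X := by rw [hX]; positivity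
  rw [← hX]
  obtain ⟨P, hP⟩ : ∃ P : ℝ, P = (r : ℝ) ^ (3 / 4 : ℝ) * (d : ℝ) ^ (1 / 4 : ℝ) := ⟨_, rfl⟩
  have hP0 : 0 ≤ P := by rw [hP]; positivity
  have hKP : K = C₁ * A * P := by rw [hKA, hP]; ring
  rw [← hP, hAA]
  have h3 : K * X ^ 2 + M' * X ≤ (C₁ + 1) * A * (P * X ^ 2 + M' * X) := by
    rw [hKP]
    have h4 : 0 ≤ M' * X := mul_nonneg hM'0 hX0
    have h5 : 0 ≤ P * X ^ 2 := mul_nonneg hP0 (sq_nonneg _)
    have h6 : 1 ≤ (C₁ + 1) * A := by nlinarith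
    have h7 : C₁ * A ≤ (C₁ + 1) * A := by nlinarith
    calc C₁ * A * P * X ^ 2 + M' * X = C₁ * A * (P * X ^ 2) + 1 * (M' * X) := by ring
      _ ≤ (C₁ + 1) * A * (P * X ^ 2) + (C₁ + 1) * A * (M' * X) :=
          add_le_add (mul_le_mul_of_nonneg_right h7 h5) (mul_le_mul_of_nonneg_right h6 h4)
      _ = (C₁ + 1) * A * (P * X ^ 2 + M' * X) := by ring
  have h8 : 0 ≤ K * X ^ 2 + M' * X := by positivity
  calc M' * ((r.divisors.card : ℝ) * ((C₃ * (r : ℝ) ^ (ε / 8)) ^ 2 * (K * X ^ 2 + M' * X)))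
      = M' * (((r.divisors.card : ℝ) * (C₃ * (r : ℝ) ^ (ε / 8)) ^ 2) * (K * X ^ 2 + M' * X)) := by
        ring
    _ ≤ M' * ((C₂ * C₃ ^ 2 * A) * ((C₁ + 1) * A * (P * X ^ 2 + M' * X))) := by
        apply mul_le_mul_of_nonneg_left _ hM'0
        exact mul_le_mul hτ h3 h8 (by positivity)
    _ = C₂ * C₃ ^ 2 * (C₁ + 1) * (A * A) * M' * (P * X ^ 2 + M' * X) := by ring

end Pool.Agent.Helper15.TW
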