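import Pool.Agent.Helper9.TW.St
import Pool.Agent.Helper15.TW.M_BIL

/-!
# Project TW: module BOX (the bilinear form for one box)
-/

set_option autoImplicit false

noncomputable section

namespace Pool.Agent.Helper15.TW

open Finset
open Pool.Agent.Helper9.TW
open Pool.Agent.Helper15.AB (ee StDB)
open Pool.Agent.Helper15.AB.hPQ (ee_add ee_norm)

/-- the two congruences -/
theorem box_congr (r m n : ℕ) (hr : 1 ≤ r) (hm : Nat.Coprime m r) (hn : Nat.Coprime n r)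
    (κ : ℤ) (e : ℕ) :
    (r : ℤ) ∣ (m : ℤ) * n * e - κ ↔ (r : ℤ) ∣ (e : ℤ) - κ * (iv r m : ℤ) * (iv r n : ℤ) := by
  have h1 := bil_iv r m hr hm
  have h2 := bil_iv r n hr hn
  have h3 : (r : ℤ) ∣ ((m : ℤ) * (iv r m : ℤ)) * ((n : ℤ) * (iv r n : ℤ)) - 1 := by
    have : ((m : ℤ) * (iv r m : ℤ)) * ((n : ℤ) * (iv r n : ℤ)) - 1 =
        ((m : ℤ) * (iv r m : ℤ) - 1) * ((n : ℤ) * (iv r n : ℤ)) + ((n : ℤ) * (iv r n : ℤ) - 1) := by
      ring
    rw [this]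
    exact dvd_add (Dvd.dvd.mul_right h1 _) h2
  constructor
  · intro h
    have : (e : ℤ) - κ * (iv r m : ℤ) * (iv r n : ℤ) =
        (iv r m : ℤ) * (iv r n : ℤ) * ((m : ℤ) * n * e - κ) -
          e * (((m : ℤ) * (iv r m : ℤ)) * ((n : ℤ) * (iv r n : ℤ)) - 1) := by ring
    rw [this]
    exact dvd_sub (Dvd.dvd.mul_left h _) (Dvd.dvd.mul_left h3 _)
  · intro h
    have : (m : ℤ) * n * e - κ = (m : ℤ) * n * ((e : ℤ) - κ * (iv r m : ℤ) * (iv r n : ℤ)) +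
          κ * (((m : ℤ) * (iv r m : ℤ)) * ((n : ℤ) * (iv r n : ℤ)) - 1) := by ring
    rw [this]
    exact dvd_add (Dvd.dvd.mul_left h _) (Dvd.dvd.mul_left h3 _)

/-- the number of dyadic ranges -/
theorem box_log (ε : ℝ) (hε : 0 < ε) : ∃ C : ℝ, 0 < C ∧ ∀ r : ℕ, 1 ≤ r →
    ((Nat.log 2 r : ℝ) + 1) ≤ C * (r : ℝ) ^ ε := by
  refine ⟨1 / (ε * Real.log 2) + 1, by
    have : 0 < Real.log 2 := Real.log_pos (by norm_num)
    positivity, ?_⟩
  intro r hr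
  have hl2 : 0 < Real.log 2 := Real.log_pos (by norm_num)
  have hr1 : (1 : ℝ) ≤ r := by exact_mod_cast hr
  have h1 : ((2 ^ Nat.log 2 r : ℕ) : ℝ) ≤ r := by
    exact_mod_cast Nat.pow_log_le_self 2 (by omega)
  have h2 : (Nat.log 2 r : ℝ) * Real.log 2 ≤ Real.log r := by
    rw [← Real.log_pow]
    apply Real.log_le_log (by positivity)
    push_cast at h1
    exact h1
  have h3 : Real.log r ≤ (r : ℝ) ^ ε / ε := Real.log_le_rpow_div (by positivity) hε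
  have h4 : 1 ≤ (r : ℝ) ^ ε := Real.one_le_rpow hr1 hε.le
  have h5 : (Nat.log 2 r : ℝ) ≤ 1 / (ε * Real.log 2) * (r : ℝ) ^ ε := by
    have : 1 / (ε * Real.log 2) * (r : ℝ) ^ ε = (r : ℝ) ^ ε / ε / Real.log 2 := by
      field_simp
    rw [this, le_div_iff₀ hl2]
    linarith
  nlinarith

theorem hBOX (hB : StBIL) (hF : StFOU) : StBOX := by
  intro ε hε
  obtain ⟨C₁, hC₁, hB'⟩ := hB ε hε
  obtain ⟨C₂, hC₂, hL⟩ := box_log (ε / 2) (by positivity)
  refine ⟨2 * C₂ * C₁ ^ (1 / 2 : ℝ), by positivity, ?_⟩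
  intro a d κ M₁ M₂ N₂ E₁ E₂ al be ha hd hκ hM hM2 hN2 hE hal hbe
  obtain ⟨r, hrdef⟩ : ∃ r : ℕ, r = a * d := ⟨_, rfl⟩
  have hr : 1 ≤ r := by rw [hrdef]; exact Nat.mul_pos ha hd
  have hr0 : (0 : ℝ) < r := by exact_mod_cast hr
  have hr1 : (1 : ℝ) ≤ r := by exact_mod_cast hr
  have hd0 : (0 : ℝ) < d := by exact_mod_cast hd
  have hBB := fun (κ : ℤ) (M₁ M₂ H N : ℕ) (al : ℕ → ℂ) (be : ℕ → ℕ → ℂ) =>
    hB' a d κ M₁ M₂ H N al be ha hd
  rw [← hrdef] at hM2 hN2 hBB ⊢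
  obtain ⟨M', hM'def⟩ : ∃ M' : ℝ, M' = (M₂ : ℝ) - M₁ := ⟨_, rfl⟩
  have hM'0 : 0 ≤ M' := by
    rw [hM'def]
    have : (M₁ : ℝ) ≤ M₂ := by exact_mod_cast hM
    linarith
  obtain ⟨E, hEdef⟩ : ∃ E : ℝ, E = (E₂ : ℝ) - E₁ := ⟨_, rfl⟩
  have hE0 : 0 ≤ E := by
    rw [hEdef]
    have : (E₁ : ℝ) ≤ E₂ := by exact_mod_cast hE
    linarith
  rw [← hM'def, ← hEdef]
  obtain ⟨S, hS⟩ : ∃ S : Finset ℕ, S = (Ioc M₁ M₂).filter (fun m => Nat.Coprime m r) := ⟨_, rfl⟩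
  obtain ⟨Nn, hNn⟩ : ∃ Nn : Finset ℕ, Nn = (Icc 1 N₂).filter (fun n => Nat.Coprime n r) := ⟨_, rfl⟩
  rw [← hS, ← hNn]
  have hSm : ∀ m ∈ S, Nat.Coprime m r := by
    intro m hm
    rw [hS, Finset.mem_filter] at hm
    exact hm.2
  have hNm : ∀ n ∈ Nn, Nat.Coprime n r := by
    intro m hm
    rw [hNn, Finset.mem_filter] at hm
    exact hm.2
  obtain ⟨u, hu⟩ : ∃ u : ℝ, u = M' ^ (1 / 2 : ℝ) * (r : ℝ) ^ (3 / 8 : ℝ) * (d : ℝ) ^ (1 / 8 : ℝ) * N₂ :=
    ⟨_, rfl⟩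
  obtain ⟨w, hw⟩ : ∃ w : ℝ, w = M' * ((N₂ : ℝ) * E / r) ^ (1 / 2 : ℝ) := ⟨_, rfl⟩
  rw [← hu, ← hw]
  have hu0 : 0 ≤ u := by rw [hu]; positivity
  have hw0 : 0 ≤ w := by rw [hw]; positivity
  have hu2 : u ^ 2 = M' * ((r : ℝ) ^ (3 / 4 : ℝ) * (d : ℝ) ^ (1 / 4 : ℝ)) * (N₂ : ℝ) ^ 2 := by
    rw [hu, mul_pow, mul_pow, mul_pow, ← Real.rpow_natCast (M' ^ (1 / 2 : ℝ)) 2,
      ← Real.rpow_natCast ((r : ℝ) ^ (3 / 8 : ℝ)) 2, ← Real.rpow_natCast ((d : ℝ) ^ (1 / 8 : ℝ)) 2,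
      ← Real.rpow_mul hM'0, ← Real.rpow_mul hr0.le, ← Real.rpow_mul hd0.le,
      show (1 / 2 : ℝ) * ((2 : ℕ) : ℝ) = 1 by norm_num, Real.rpow_one,
      show (3 / 8 : ℝ) * ((2 : ℕ) : ℝ) = 3 / 4 by norm_num,
      show (1 / 8 : ℝ) * ((2 : ℕ) : ℝ) = 1 / 4 by norm_num]
    ring
  have hw2 : w ^ 2 = M' ^ 2 * ((N₂ : ℝ) * E / r) := by
    rw [hw, mul_pow, ← Real.rpow_natCast (((N₂ : ℝ) * E / r) ^ (1 / 2 : ℝ)) 2,
      ← Real.rpow_mul (by positivity)]
    norm_num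
  obtain ⟨B, hBd⟩ : ∃ B : ℝ, B = (C₁ * (r : ℝ) ^ ε) ^ (1 / 2 : ℝ) * (u + w) := ⟨_, rfl⟩
  have hB0 : 0 ≤ B := by rw [hBd]; positivity
  have hB2 : C₁ * (r : ℝ) ^ ε * (u ^ 2 + w ^ 2) ≤ B ^ 2 := by
    rw [hBd, mul_pow, ← Real.rpow_natCast ((C₁ * (r : ℝ) ^ ε) ^ (1 / 2 : ℝ)) 2,
      ← Real.rpow_mul (by positivity)]
    norm_num
    apply mul_le_mul_of_nonneg_left _ (by positivity)
    nlinarith [mul_nonneg hu0 hw0]
  -- one dyadic range
  have part : ∀ (κ' : ℤ), IsCoprime κ' (a : ℤ) → ∀ c : ℕ → ℂ,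
      (∀ h ∈ Icc 1 (r / 2), ‖c h‖ ≤ min (E / r) (1 / (2 * h))) → ∀ i : ℕ,
      ‖∑ h ∈ (Icc 1 (r / 2)).filter (fun h => Nat.log 2 h = i), ∑ m ∈ S, ∑ n ∈ Nn,
        (al m : ℂ) * ((be n : ℂ) * c h) *
          ee (((κ' * h * (iv r m : ℤ) * (iv r n : ℤ) : ℤ) : ℝ) / (r : ℝ))‖ ≤ B := by
    intro κ' hκ' c hc i
    obtain ⟨F, hFd⟩ : ∃ F : Finset ℕ, F = (Icc 1 (r / 2)).filter (fun h => Nat.log 2 h = i) := ⟨_, rfl⟩
    rw [← hFd]
    have hFm : ∀ h ∈ F, h ∈ Icc 1 (r / 2) ∧ 2 ^ i ≤ h ∧ h < 2 ^ (i + 1) := by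
      intro h hh
      rw [hFd, Finset.mem_filter] at hh
      have h1 := Finset.mem_Icc.1 hh.1
      refine ⟨hh.1, ?_, ?_⟩
      · rw [← hh.2]; exact Nat.pow_log_le_self 2 (by omega)
      · rw [← hh.2]; exact Nat.lt_pow_succ_log_self (by norm_num) h
    rcases F.eq_empty_or_nonempty with hFe | ⟨h0, hh0⟩
    · rw [hFe, Finset.sum_empty, norm_zero]
      exact hB0
    · have h2i : 2 ^ i ≤ r / 2 := by
        have h1 := hFm h0 hh0
        have h2 := Finset.mem_Icc.1 h1.1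
        omega
      obtain ⟨X, hX⟩ : ∃ X : ℝ, X = min (E / r) (1 / (2 * 2 ^ i)) := ⟨_, rfl⟩
      have hX0 : 0 ≤ X := by rw [hX]; exact le_min (by positivity) (by positivity)
      have hcX : ∀ h ∈ F, ‖c h‖ ≤ X := by
        intro h hh
        have h1 := hFm h hh
        rw [hX]
        refine (hc h h1.1).trans (min_le_min le_rfl ?_)
        apply one_div_le_one_div_of_le (by positivity)
        have : ((2 ^ i : ℕ) : ℝ) ≤ h := by exact_mod_cast h1.2.1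
        push_cast at this
        linarith
      rcases hX0.eq_or_lt with hXz | hXpos
      · have : ∑ h ∈ F, ∑ m ∈ S, ∑ n ∈ Nn, (al m : ℂ) * ((be n : ℂ) * c h) *
            ee (((κ' * h * (iv r m : ℤ) * (iv r n : ℤ) : ℤ) : ℝ) / (r : ℝ)) = 0 := by
          refine Finset.sum_eq_zero fun h hh => Finset.sum_eq_zero fun m _ =>
            Finset.sum_eq_zero fun n _ => ?_
          have h1 : c h = 0 := by
            have := hcX h hh
            rw [← hXz] at this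
            exact norm_le_zero_iff.1 this
          rw [h1]; simp
        rw [this, norm_zero]
        exact hB0
      · obtain ⟨be', hbe'⟩ : ∃ be' : ℕ → ℕ → ℂ, be' = fun h n =>
            if h ∈ F then (be n : ℂ) * c h / (X : ℂ) else 0 := ⟨_, rfl⟩
        have hXc : (X : ℂ) ≠ 0 := by exact_mod_cast hXpos.ne'
        have hbn : ∀ h n, ‖be' h n‖ ≤ 1 := by
          intro h n
          rw [hbe']
          by_cases hh : h ∈ F
          · simp only [hh, if_true]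
            rw [norm_div, norm_mul, Complex.norm_real, Complex.norm_real, Real.norm_of_nonneg hX0,
              div_le_one hXpos]
            calc ‖be n‖ * ‖c h‖ ≤ 1 * X := by
                  apply mul_le_mul _ (hcX h hh) (norm_nonneg _) (by norm_num)
                  rw [Real.norm_eq_abs]; exact hbe n
              _ = X := one_mul X
          · simp only [hh, if_false, norm_zero]
            norm_num
        have hsum : ∑ h ∈ F, ∑ m ∈ S, ∑ n ∈ Nn, (al m : ℂ) * ((be n : ℂ) * c h) *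
            ee (((κ' * h * (iv r m : ℤ) * (iv r n : ℤ) : ℤ) : ℝ) / (r : ℝ)) =
            (X : ℂ) * ∑ m ∈ S, ∑ h ∈ Icc 1 (2 ^ (i + 1)), ∑ n ∈ Nn, (al m : ℂ) * be' h n *
              ee (((κ' * h * (iv r m : ℤ) * (iv r n : ℤ) : ℤ) : ℝ) / (r : ℝ)) := by
          rw [Finset.sum_comm (s := S) (t := Icc 1 (2 ^ (i + 1)))]
          have hsub : F ⊆ Icc 1 (2 ^ (i + 1)) := by
            intro h hh
            have h1 := hFm h hh
            have h2 := Finset.mem_Icc.1 h1.1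
            rw [Finset.mem_Icc]
            omega
          rw [← Finset.sum_subset hsub, Finset.mul_sum]
          · refine Finset.sum_congr rfl fun h hh => ?_
            rw [Finset.mul_sum]
            refine Finset.sum_congr rfl fun m _ => ?_
            rw [Finset.mul_sum]
            refine Finset.sum_congr rfl fun n _ => ?_
            rw [hbe']
            simp only [hh, if_true]
            field_simp
          · intro h _ hh
            refine Finset.sum_eq_zero fun m _ => Finset.sum_eq_zero fun n _ => ?_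
            rw [hbe']
            simp only [hh, if_false]
            ring
        rw [hsum, norm_mul, Complex.norm_real, Real.norm_of_nonneg hX0]
        have hHN : 2 ^ (i + 1) * N₂ ≤ r ^ 2 := by
          have h1 : 2 ^ (i + 1) ≤ r := by
            rw [pow_succ]
            omega
          calc 2 ^ (i + 1) * N₂ ≤ r * r := Nat.mul_le_mul h1 hN2
            _ = r ^ 2 := by ring
        have hmain := hBB κ' M₁ M₂ (2 ^ (i + 1)) N₂ (fun m => (al m : ℂ)) be' hκ' hM hM2 hHN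
          (by
            intro m
            simp only [Complex.norm_real, Real.norm_eq_abs]
            exact hal m) hbn
        rw [← hS, ← hNn, ← hM'def] at hmain
        refine (pow_le_pow_iff_left₀ (by positivity) hB0 (two_ne_zero)).1 ?_
        refine le_trans ?_ hB2
        rw [mul_pow]
        refine (mul_le_mul_of_nonneg_left hmain (sq_nonneg X)).trans ?_
        rw [hu2, hw2]
        obtain ⟨H, hH⟩ : ∃ H : ℝ, H = 2 * 2 ^ i := ⟨_, rfl⟩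
        have hH0 : 0 < H := by rw [hH]; positivity
        have hHc : ((2 ^ (i + 1) : ℕ) : ℝ) = H := by rw [hH]; push_cast; ring
        rw [hHc]
        have hXH : X * H ≤ 1 := by
          have h1 : X ≤ 1 / H := by rw [hX, hH]; exact min_le_right _ _
          calc X * H ≤ 1 / H * H := mul_le_mul_of_nonneg_right h1 hH0.le
            _ = 1 := by field_simp
        have hXE : X ≤ E / r := by rw [hX]; exact min_le_left _ _
        have hXH0 : 0 ≤ X * H := by positivity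
        have k1 : (X * H) ^ 2 ≤ 1 := by nlinarith
        have k2 : X * (X * H) ≤ E / r := by nlinarith
        obtain ⟨P, hP⟩ : ∃ P : ℝ, P = (r : ℝ) ^ (3 / 4 : ℝ) * (d : ℝ) ^ (1 / 4 : ℝ) := ⟨_, rfl⟩
        have hP0 : 0 ≤ P := by rw [hP]; positivity
        rw [← hP]
        have hn0 : (0 : ℝ) ≤ N₂ := by positivity
        calc X ^ 2 * (C₁ * (r : ℝ) ^ ε * M' * (P * (H * N₂) ^ 2 + M' * (H * N₂)))
            = C₁ * (r : ℝ) ^ ε * (M' * P * (N₂ : ℝ) ^ 2 * (X * H) ^ 2 +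
                M' ^ 2 * N₂ * (X * (X * H))) := by ring
          _ ≤ C₁ * (r : ℝ) ^ ε * (M' * P * (N₂ : ℝ) ^ 2 * 1 + M' ^ 2 * N₂ * (E / r)) := by
              apply mul_le_mul_of_nonneg_left _ (by positivity)
              exact add_le_add (mul_le_mul_of_nonneg_left k1 (by positivity))
                (mul_le_mul_of_nonneg_left k2 (by positivity))
          _ = C₁ * (r : ℝ) ^ ε * (M' * P * (N₂ : ℝ) ^ 2 + M' ^ 2 * (N₂ * E / r)) := by ring
  -- all frequencies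
  have full : ∀ (κ' : ℤ), IsCoprime κ' (a : ℤ) → ∀ c : ℕ → ℂ,
      (∀ h ∈ Icc 1 (r / 2), ‖c h‖ ≤ min (E / r) (1 / (2 * h))) →
      ‖∑ h ∈ Icc 1 (r / 2), ∑ m ∈ S, ∑ n ∈ Nn,
        (al m : ℂ) * ((be n : ℂ) * c h) *
          ee (((κ' * h * (iv r m : ℤ) * (iv r n : ℤ) : ℤ) : ℝ) / (r : ℝ))‖ ≤
        ((Nat.log 2 r : ℝ) + 1) * B := by
    intro κ' hκ' c hc
    have hmaps : ∀ h ∈ Icc 1 (r / 2), Nat.log 2 h ∈ range (Nat.log 2 r + 1) := by
      intro h hh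
      rw [Finset.mem_range, Nat.lt_succ_iff]
      apply Nat.log_mono_right
      have := Finset.mem_Icc.1 hh
      omega
    rw [← Finset.sum_fiberwise_of_maps_to hmaps]
    refine (norm_sum_le _ _).trans ?_
    refine (Finset.sum_le_card_nsmul _ _ B (fun i _ => part κ' hκ' c hc i)).trans ?_
    rw [Finset.card_range, nsmul_eq_mul]
    push_cast
    exact le_rfl
  -- the expansion
  obtain ⟨c, c', hcc, hfou⟩ := hF r E₁ E₂ hr hE
  rw [← hEdef] at hcc hfou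
  have hexp : ((∑ m ∈ S, ∑ n ∈ Nn, al m * be n *
      ((((Ioc E₁ E₂).filter (fun e : ℕ => (r : ℤ) ∣ (m : ℤ) * n * e - κ)).card : ℝ) - E / r) : ℝ) : ℂ) =
      (∑ h ∈ Icc 1 (r / 2), ∑ m ∈ S, ∑ n ∈ Nn, (al m : ℂ) * ((be n : ℂ) * c h) *
          ee (((κ * h * (iv r m : ℤ) * (iv r n : ℤ) : ℤ) : ℝ) / (r : ℝ))) +
      ∑ h ∈ Icc 1 (r / 2), ∑ m ∈ S, ∑ n ∈ Nn, (al m : ℂ) * ((be n : ℂ) * c' h) *
          ee ((((-κ) * h * (iv r m : ℤ) * (iv r n : ℤ) : ℤ) : ℝ) / (r : ℝ)) := by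
    rw [← Finset.sum_add_distrib]
    have h1 : ∀ h ∈ Icc 1 (r / 2), (∑ m ∈ S, ∑ n ∈ Nn, (al m : ℂ) * ((be n : ℂ) * c h) *
          ee (((κ * h * (iv r m : ℤ) * (iv r n : ℤ) : ℤ) : ℝ) / (r : ℝ))) +
        (∑ m ∈ S, ∑ n ∈ Nn, (al m : ℂ) * ((be n : ℂ) * c' h) *
          ee ((((-κ) * h * (iv r m : ℤ) * (iv r n : ℤ) : ℤ) : ℝ) / (r : ℝ))) =
        ∑ m ∈ S, ∑ n ∈ Nn, (al m : ℂ) * (be n : ℂ) *
          (c h * ee (((h * (κ * (iv r m : ℤ) * (iv r n : ℤ)) : ℤ) : ℝ) / r) +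
            c' h * ee (((-(h * (κ * (iv r m : ℤ) * (iv r n : ℤ))) : ℤ) : ℝ) / r)) := by
      intro h _
      rw [← Finset.sum_add_distrib]
      refine Finset.sum_congr rfl fun m _ => ?_
      rw [← Finset.sum_add_distrib]
      refine Finset.sum_congr rfl fun n _ => ?_
      rw [show (κ * h * (iv r m : ℤ) * (iv r n : ℤ) : ℤ) = h * (κ * (iv r m : ℤ) * (iv r n : ℤ)) by ring,
        show ((-κ) * h * (iv r m : ℤ) * (iv r n : ℤ) : ℤ) = -(h * (κ * (iv r m : ℤ) * (iv r n : ℤ))) by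
          ring]
      ring
    rw [Finset.sum_congr rfl h1, Finset.sum_comm (s := Icc 1 (r / 2)) (t := S)]
    push_cast
    refine Finset.sum_congr rfl fun m hm => ?_
    rw [Finset.sum_comm (s := Icc 1 (r / 2)) (t := Nn)]
    refine Finset.sum_congr rfl fun n hn => ?_
    have h2 := hfou (κ * (iv r m : ℤ) * (iv r n : ℤ))
    have h3 : (Ioc E₁ E₂).filter (fun e : ℕ => (r : ℤ) ∣ (m : ℤ) * n * e - κ) =
        (Ioc E₁ E₂).filter (fun e : ℕ => (r : ℤ) ∣ (e : ℤ) - κ * (iv r m : ℤ) * (iv r n : ℤ)) := by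
      ext e
      rw [Finset.mem_filter, Finset.mem_filter, box_congr r m n hr (hSm m hm) (hNm n hn) κ e]
    rw [h3, h2, ← Finset.mul_sum]
    push_cast
    ring
  have hfin : |∑ m ∈ S, ∑ n ∈ Nn, al m * be n *
      ((((Ioc E₁ E₂).filter (fun e : ℕ => (r : ℤ) ∣ (m : ℤ) * n * e - κ)).card : ℝ) - E / r)| ≤
      2 * (((Nat.log 2 r : ℝ) + 1) * B) := by
    rw [← Real.norm_eq_abs, ← Complex.norm_real, hexp]
    refine (norm_add_le _ _).trans ?_
    have h1 := full κ hκ c (fun h hh => (hcc h hh).1)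
    have h2 := full (-κ) hκ.neg_left c' (fun h hh => (hcc h hh).2)
    linarith
  refine hfin.trans ?_
  have h1 := hL r hr
  have h2 : (C₁ * (r : ℝ) ^ ε) ^ (1 / 2 : ℝ) = C₁ ^ (1 / 2 : ℝ) * (r : ℝ) ^ (ε / 2) := by
    rw [Real.mul_rpow hC₁.le (by positivity), ← Real.rpow_mul hr0.le]
    congr 2
    ring
  have h3 : (r : ℝ) ^ ε = (r : ℝ) ^ (ε / 2) * (r : ℝ) ^ (ε / 2) := by
    rw [← Real.rpow_add hr0]
    congr 1
    ring
  calc 2 * (((Nat.log 2 r : ℝ) + 1) * B) ≤ 2 * (C₂ * (r : ℝ) ^ (ε / 2) * B) := by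
        apply mul_le_mul_of_nonneg_left _ (by norm_num)
        exact mul_le_mul_of_nonneg_right h1 hB0
    _ = 2 * C₂ * C₁ ^ (1 / 2 : ℝ) * (r : ℝ) ^ ε * (u + w) := by
        rw [hBd, h2, h3]; ring

end Pool.Agent.Helper15.TW
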